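import Mathlib

/-!
# Border varieties of sums of powers for toric varieties

The Cox ring of a smooth projective toric variety, multigraded Hilbert schemes (Haiman and
Sturmfels), the component `Slip`, secant varieties, border rank and border VSP.
-/

open MvPolynomial CategoryTheory AlgebraicGeometry

namespace BorderVSP

/-- The data of the Cox ring of a smooth projective toric variety `X`: the degrees
`w i ∈ Pic X = ℤ^s` of the `n` variables (the classes of the torus invariant prime divisors) and
the maximal cones of the fan, as sets of variables.  `basis`: the classes of the divisors outside a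
maximal cone form a basis of `Pic X` (`X` is smooth).  `finite`: `S_a` is finite-dimensional (`X`
is complete). -/
structure CoxData where
  n : ℕ
  s : ℕ
  w : Fin n → (Fin s → ℤ)
  cones : Finset (Finset (Fin n))
  nonempty : cones.Nonempty
  basis : ∀ σ ∈ cones, LinearIndependent ℤ (fun i : {i // i ∉ σ} => w i) ∧
    Submodule.span ℤ (w '' {i | i ∉ σ}) = ⊤
  finite : ∀ a : Fin s → ℤ, {e : Fin n →₀ ℕ | Finsupp.weight w e = a}.Finite

namespace CoxData

variable (D : CoxData)

/-- The grading group `Pic X`. -/
abbrev A : Type := Fin D.s → ℤ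

/-- The Cox ring `S`. -/
abbrev S : Type := MvPolynomial (Fin D.n) ℂ

/-- The irrelevant ideal `B`. -/
noncomputable def B : Ideal D.S :=
  Ideal.span {p | ∃ σ ∈ D.cones, p = ∏ i ∈ σᶜ, X i}

/-- The class `v` is ample: for every maximal cone there is a monomial of degree `v` in exactly
the variables outside the cone (the vertex of the polytope of `v` corresponding to the cone). -/
def IsAmple (v : D.A) : Prop :=
  ∀ σ ∈ D.cones, ∃ e : Fin D.n →₀ ℕ, Finsupp.weight D.w e = v ∧ e.support = σᶜ

/-- A vector of coordinates of a point of `X` (it is not in the zero set of `B`). -/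
def IsPt (x : Fin D.n → ℂ) : Prop := ∃ σ ∈ D.cones, ∀ i, i ∉ σ → x i ≠ 0

/-- Two vectors are coordinates of the same point of `X`: they are in one orbit of the torus
`Hom (Pic X, ℂ^*)`. -/
def SamePt (x y : Fin D.n → ℂ) : Prop :=
  ∃ χ : Multiplicative D.A →* ℂˣ, ∀ i, y i = χ (Multiplicative.ofAdd (D.w i)) * x i

/-- `J` is the saturated homogeneous ideal of the points with coordinates `x 1, …, x r`: a
polynomial is in `J` if and only if its homogeneous components vanish at all the points. -/
def IsIdealOf {r : ℕ} (x : Fin r → Fin D.n → ℂ) (J : Ideal D.S) : Prop :=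
  ∀ g : D.S, g ∈ J ↔ ∀ (a : D.A) (j : Fin r), eval (x j) (weightedHomogeneousComponent D.w a g) = 0

/-- `J = (J : B^∞)`. -/
def Saturated (J : Ideal D.S) : Prop :=
  ∀ g : D.S, (∃ N : ℕ, ∀ b ∈ D.B ^ N, b * g ∈ J) → g ∈ J

/-- The monomials of degree `v`. -/
def Mon (v : D.A) : Type := {e : Fin D.n →₀ ℕ // Finsupp.weight D.w e = v}

instance (v : D.A) : Finite (D.Mon v) := (D.finite v).to_subtype
noncomputable instance (v : D.A) : Fintype (D.Mon v) := Fintype.ofFinite _
noncomputable instance (v : D.A) : DecidableEq (D.Mon v) := Classical.decEq _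

/-- The space `T_v = (S_v)^*`, the part of degree `v` of the graded dual of `S`: an element `F` is
given by its values on the monomials of degree `v`. -/
abbrev T (v : D.A) : Type := D.Mon v → ℂ

variable {D}

/-- The pairing of `F ∈ T_v` and `g ∈ S` (only the component of `g` of degree `v` matters). -/
noncomputable def pair {v : D.A} (F : D.T v) (g : D.S) : ℂ := ∑ e : D.Mon v, coeff e.1 g * F e

/-- The apolar ideal `Ann F = {g ∈ S | g ∘ F = 0}`, where `g ∘ F` is the functional
`g' ↦ F (g g')` (the action of `S` on its graded dual, isomorphic to the action by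
differentiation). -/
def Ann {v : D.A} (F : D.T v) : Set D.S := {g | ∀ g' : D.S, pair F (g * g') = 0}

/-- The point of `T_v` given by a vector of coordinates: evaluation of the elements of `S_v`. -/
noncomputable def ev (v : D.A) (x : Fin D.n → ℂ) : D.T v := fun e => ∏ i, x i ^ (e.1 i)

/-- The affine cone over the secant variety `σ_r(X)`: the Zariski closure of the set of the linear
combinations of `r` points of `X` in `T_v`. -/
def secant (v : D.A) (r : ℕ) : Set (D.T v) :=
  {F | ∀ f : MvPolynomial (D.Mon v) ℂ,
    (∀ x : Fin r → Fin D.n → ℂ, (∀ j, D.IsPt (x j)) → ∀ c : Fin r → ℂ,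
      eval (∑ j, c j • ev v (x j)) f = 0) → eval F f = 0}

/-- The border rank of `F`. -/
noncomputable def borderRank {v : D.A} (F : D.T v) : ℕ := sInf {r | F ∈ secant v r}

end CoxData

/-! ### Multigraded Hilbert schemes -/

/-- The `T`-module `M` is locally free of (constant, finite) rank `r`. -/
def LocallyFreeOfRank (T : Type) [CommRing T] (M : Type) [AddCommGroup M] [Module T M]
    (r : ℕ) : Prop :=
  Module.Finite T M ∧ Module.Projective T M ∧ ∀ p : PrimeSpectrum T, Module.rankAtStalk M p = r

section Hilb

variable {A : Type} [AddCommGroup A] {n : ℕ}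

/-- The degree `a` part of `T[x_1, ..., x_n] / I`, where `x_i` has degree `w i`. -/
abbrev GradedPiece (w : Fin n → A) {T : Type} [CommRing T]
    (I : Ideal (MvPolynomial (Fin n) T)) (a : A) : Type :=
  weightedHomogeneousSubmodule T w a ⧸
    (I.restrictScalars T).comap (weightedHomogeneousSubmodule T w a).subtype

/-- The multigraded Hilbert functor of Haiman and Sturmfels: the homogeneous ideals `I` of
`T[x_1, ..., x_n]` such that the degree `a` part of `T[x_1, ..., x_n] / I` is locally free of rank
`h a` for every `a`. -/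
def hilb (w : Fin n → A) (h : A → ℕ) (T : Type) [CommRing T] :
    Set (Ideal (MvPolynomial (Fin n) T)) :=
  {I | (∀ F ∈ I, ∀ a, weightedHomogeneousComponent w a F ∈ I) ∧
    ∀ a, LocallyFreeOfRank T (GradedPiece w I a) (h a)}

end Hilb

/-- The `T`-points over `ℂ` of a scheme `X` over `ℂ`. -/
def Points (X : Scheme.{0}) (s : X ⟶ Spec (CommRingCat.of ℂ)) (T : Type)
    [CommRing T] [Algebra ℂ T] : Type :=
  {g : Spec (CommRingCat.of T) ⟶ X // g ≫ s = Spec.map (CommRingCat.ofHom (algebraMap ℂ T))}

/-- The multigraded Hilbert scheme of the Cox ring for the Hilbert function `h`: a scheme `X` of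
finite type over `ℂ` that represents the multigraded Hilbert functor. -/
structure HilbScheme (D : CoxData) (h : D.A → ℕ) where
  X : Scheme.{0}
  s : X ⟶ Spec (CommRingCat.of ℂ)
  locallyOfFiniteType : LocallyOfFiniteType s
  compact : CompactSpace X
  Φ : ∀ (T : Type) [CommRing T] [Algebra ℂ T], Points X s T ≃ hilb D.w h T
  natural : ∀ (T T' : Type) [CommRing T] [Algebra ℂ T] [CommRing T'] [Algebra ℂ T']
    (φ : T →ₐ[ℂ] T') (g : Points X s T) (g' : Points X s T'),
    g'.1 = Spec.map (CommRingCat.ofHom (φ : T →+* T')) ≫ g.1 →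
    (Φ T' g').1 = Ideal.map (MvPolynomial.map (φ : T →+* T')) (Φ T g).1

namespace HilbScheme

variable {D : CoxData} {h : D.A → ℕ} (H : HilbScheme D h)

/-- The set of the `ℂ`-points of the multigraded Hilbert scheme: homogeneous ideals of `S` with
Hilbert function `h`. -/
def Pts (_H : HilbScheme D h) : Type := hilb D.w h ℂ

/-- The point of the scheme. -/
noncomputable def pt (J : H.Pts) : H.X :=
  ((H.Φ ℂ).symm J).1 (IsLocalRing.closedPoint ℂ)

/-- The Zariski topology. -/
noncomputable instance : TopologicalSpace H.Pts := TopologicalSpace.induced H.pt inferInstance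

/-- The ideal of a point. -/
def ideal (J : H.Pts) : Ideal D.S := Subtype.val J

/-- `Slip_{r,X}`: the closure of the set of the saturated ideals of `r` distinct points of `X` with
Hilbert function `h`. -/
def Slip (r : ℕ) : Set H.Pts :=
  closure {J | ∃ x : Fin r → Fin D.n → ℂ, (∀ j, D.IsPt (x j)) ∧
    (∀ i j, i ≠ j → ¬ D.SamePt (x i) (x j)) ∧ D.IsIdealOf x (H.ideal J)}

/-- The border variety of sums of powers `VSP(F, r) = {J ∈ Slip | J ⊆ Ann F}`. -/
def VSP (r : ℕ) {v : D.A} (F : D.T v) : Set H.Pts :=
  {J | J ∈ H.Slip r ∧ ∀ g ∈ H.ideal J, g ∈ CoxData.Ann F}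

/-- `Z` is an irreducible component of the closed set `V`. -/
def IsComponent (V Z : Set H.Pts) : Prop :=
  Maximal (fun Z : Set H.Pts => IsIrreducible Z ∧ Z ⊆ V) Z

/-- The general point of `Z` is a saturated ideal. -/
def GenSaturated (Z : Set H.Pts) : Prop :=
  ∃ W : Set H.Pts, IsOpen W ∧ (Z ∩ W).Nonempty ∧ ∀ J ∈ Z ∩ W, D.Saturated (H.ideal J)

/-- The general point of `Z` is a nonsaturated ideal. -/
def GenNonsaturated (Z : Set H.Pts) : Prop :=
  ∃ W : Set H.Pts, IsOpen W ∧ (Z ∩ W).Nonempty ∧ ∀ J ∈ Z ∩ W, ¬ D.Saturated (H.ideal J)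

end HilbScheme

end BorderVSP
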