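import Pool.Agent.T2h12.SL.Stm

/-! Task APO: apolar ideals and the fibres of a family. -/

set_option autoImplicit false

open MvPolynomial CategoryTheory AlgebraicGeometry

namespace BorderVSP

namespace APO

theorem coeff_sum_mon {D : CoxData} {v : D.A} {R : Type} [CommRing R] (u : D.Mon v → R)
    (e : D.Mon v) : coeff e.1 (∑ e : D.Mon v, monomial e.1 (u e)) = u e := by
  rw [coeff_sum, Finset.sum_eq_single e]
  · rw [coeff_monomial, if_pos rfl]
  · intro e' _ hne
    rw [coeff_monomial, if_neg fun h => hne (Subtype.ext h)]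
  · intro h
    exact absurd (Finset.mem_univ e) h

theorem sum_mon {D : CoxData} {v : D.A} {R : Type} [CommRing R]
    (p : MvPolynomial (Fin D.n) R) :
    ∑ e : D.Mon v, monomial e.1 (coeff e.1 p) = weightedHomogeneousComponent D.w v p := by
  ext d
  rw [coeff_weightedHomogeneousComponent]
  split_ifs with h
  · exact coeff_sum_mon (fun e : D.Mon v => coeff e.1 p) ⟨d, h⟩
  · rw [coeff_sum]
    refine Finset.sum_eq_zero fun e _ => ?_
    rw [coeff_monomial, if_neg]
    rintro rfl
    exact h e.2

end APO

theorem t_APO : S_APO := by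
  refine ⟨fun D v F J => ⟨fun h g hg => ?_, fun h g hg g' => ?_⟩,
    fun D v F R _ _ I hI m => ⟨fun h u hu => ?_, fun h g hg => ?_⟩⟩
  · have h1 := h g hg 1
    rwa [mul_one] at h1
  · exact h _ (J.mul_mem_right _ hg)
  · have h1 : MvPolynomial.map (m : R →+* ℂ) (∑ e : D.Mon v, monomial e.1 (u e)) ∈ fib m I :=
      Ideal.mem_map_of_mem _ hu
    have h2 := h _ h1
    rw [map_sum] at h2
    simp only [map_monomial] at h2
    unfold CoxData.pair at h2
    simp only [APO.coeff_sum_mon] at h2
    exact h2
  · have hsurj : Function.Surjective (MvPolynomial.map (m : R →+* ℂ) :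
        MvPolynomial (Fin D.n) R → MvPolynomial (Fin D.n) ℂ) := by
      apply MvPolynomial.map_surjective
      intro z
      exact ⟨algebraMap ℂ R z, m.commutes z⟩
    obtain ⟨p, hp, rfl⟩ := (Ideal.mem_map_iff_of_surjective _ hsurj).1 hg
    have h1 := h (fun e => coeff e.1 p) (by
      change ∑ e : D.Mon v, monomial e.1 (coeff e.1 p) ∈ I
      rw [APO.sum_mon]
      exact hI p hp v)
    unfold CoxData.pair
    simp only [coeff_map]
    exact h1

end BorderVSP
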