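import Pool.Agent.T2h12.SL.Stm

/-!
# Project SL, task AT1: finite affine covers by spectra of algebras of finite type
-/

open MvPolynomial CategoryTheory AlgebraicGeometry

namespace BorderVSP

theorem t_AT1 : S_AT1 := by
  classical
  intro X s hs hc
  have hU : ∀ x : X, ∃ U : X.affineOpens, x ∈ U.1 := by
    intro x
    obtain ⟨U, hU, hx, -⟩ := exists_isAffineOpen_mem_and_subset (U := ⊤) (x := x) trivial
    exact ⟨⟨U, hU⟩, hx⟩
  choose U hU using hU
  obtain ⟨t, ht⟩ := isCompact_univ.elim_finite_subcover (fun x : X => ((U x).1 : Set X))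
    (fun x => (U x).1.isOpen) (fun x _ => Set.mem_iUnion.2 ⟨x, hU x⟩)
  let e : Fin t.card ≃ t := t.equivFin.symm
  let V : Fin t.card → X.affineOpens := fun i => U (e i)
  let φ : ∀ i, CommRingCat.of ℂ ⟶ Γ(X, (V i).1) := fun i => Spec.preimage ((V i).2.fromSpec ≫ s)
  have hφ : ∀ i, Spec.map (φ i) = (V i).2.fromSpec ≫ s := fun i => Spec.map_preimage _
  refine ⟨t.card, fun i => Γ(X, (V i).1), fun i => inferInstance, fun i => (φ i).hom.toAlgebra,
    fun i => ⟨(V i).2.fromSpec, ?_⟩, fun i => ?_, fun i => ?_, fun x => ?_⟩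
  · exact (hφ i).symm
  · have h1 : LocallyOfFiniteType (Spec.map (φ i)) := by
      rw [hφ i]
      have h2 : IsOpenImmersion (V i).2.fromSpec := (V i).2.isOpenImmersion_fromSpec
      exact MorphismProperty.comp_mem _ _ _ (inferInstanceAs (LocallyOfFiniteType (V i).2.fromSpec)) hs
    exact (HasRingHomProperty.Spec_iff (P := @LocallyOfFiniteType)).1 h1
  · exact (V i).2.isOpenImmersion_fromSpec
  · obtain ⟨y, hy⟩ := Set.mem_iUnion.1 (ht (Set.mem_univ x))
    obtain ⟨hy1, hy2⟩ := Set.mem_iUnion.1 hy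
    refine ⟨e.symm ⟨y, hy1⟩, ?_⟩
    have h2 : V (e.symm ⟨y, hy1⟩) = U y := by
      simp [V]
    have h3 : Set.range (V (e.symm ⟨y, hy1⟩)).2.fromSpec = ((V (e.symm ⟨y, hy1⟩)).1 : Set X) :=
      IsAffineOpen.range_fromSpec _
    have h4 : x ∈ ((V (e.symm ⟨y, hy1⟩)).1 : Set X) := by
      rw [h2]
      exact hy2
    rw [← h3] at h4
    exact h4

end BorderVSP
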