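import Pool.Agent.T2h12.SL.Stm

open MvPolynomial CategoryTheory AlgebraicGeometry

namespace BorderVSP

namespace AT2

lemma pt_ptOf {D : CoxData} {h : D.A → ℕ} (H : HilbScheme D h) {R : Type} [CommRing R]
    [Algebra ℂ R] (g : Points H.X H.s R) (m : R →ₐ[ℂ] ℂ) :
    H.pt (ptOf H g m) =
      g.1 (PrimeSpectrum.comap (m : R →+* ℂ) (IsLocalRing.closedPoint ℂ)) := by
  unfold HilbScheme.pt ptOf
  rw [Equiv.symm_apply_apply]
  rfl

lemma mem_comap {R : Type} [CommRing R] [Algebra ℂ R] (m : R →ₐ[ℂ] ℂ) (c : R) :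
    c ∈ (PrimeSpectrum.comap (m : R →+* ℂ) (IsLocalRing.closedPoint ℂ)).asIdeal ↔ m c = 0 := by
  rw [PrimeSpectrum.comap_asIdeal, Ideal.mem_comap]
  change m c ∈ IsLocalRing.maximalIdeal ℂ ↔ _
  rw [IsLocalRing.maximalIdeal_eq_bot]
  exact Ideal.mem_bot

lemma exists_hom {D : CoxData} {h : D.A → ℕ} (H : HilbScheme D h) {R : Type} [CommRing R]
    [Algebra ℂ R] (g : Points H.X H.s R) (hg : IsOpenImmersion g.1) (J : H.Pts)
    (hJ : H.pt J ∈ Set.range g.1) : ∃ m, J = ptOf H g m := by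
  set q : Points H.X H.s ℂ := (H.Φ ℂ).symm J with hq
  have hr : Set.range q.1 ⊆ Set.range g.1 := by
    rintro _ ⟨x, rfl⟩
    have hx : x = IsLocalRing.closedPoint ℂ := Subsingleton.elim (α := PrimeSpectrum ℂ) _ _
    rw [hx]
    exact hJ
  set l := IsOpenImmersion.lift g.1 q.1 hr with hl
  have hfac : l ≫ g.1 = q.1 := IsOpenImmersion.lift_fac g.1 q.1 hr
  have h1 : l ≫ Spec.map (CommRingCat.ofHom (algebraMap ℂ R)) =
      Spec.map (CommRingCat.ofHom (algebraMap ℂ ℂ)) := by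
    rw [← g.2, ← Category.assoc, hfac, q.2]
  let m : R →ₐ[ℂ] ℂ :=
    { (Spec.preimage l).hom with
      commutes' := by
        intro c
        rw [← Spec.map_preimage l, ← Spec.map_comp] at h1
        have h2 := Spec.map_injective h1
        exact congrArg (fun f : CommRingCat.of ℂ ⟶ CommRingCat.of ℂ => f.hom c) h2 }
  have hm : Spec.map (CommRingCat.ofHom (m : R →+* ℂ)) = l := by
    change Spec.map (Spec.preimage l) = l
    exact Spec.map_preimage l
  refine ⟨m, ?_⟩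
  have h3 : q = ⟨Spec.map (CommRingCat.ofHom (m : R →+* ℂ)) ≫ g.1, by
      rw [Category.assoc, g.2, ← Spec.map_comp, ← CommRingCat.ofHom_comp]
      congr 2
      exact m.comp_algebraMap⟩ := by
    apply Subtype.ext
    change q.1 = Spec.map (CommRingCat.ofHom (m : R →+* ℂ)) ≫ g.1
    rw [hm, hfac]
  have h4 : J = H.Φ ℂ q := by rw [hq, Equiv.apply_symm_apply]
  rw [h4, h3]
  rfl

end AT2

theorem t_AT2 : S_AT2 := by
  intro D h H R _ _ g
  refine ⟨fun m => ?_, fun C hC => ?_, fun hg => ⟨fun J hJ => AT2.exists_hom H g hg J hJ,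
    fun b => ?_⟩⟩
  · exact H.natural R ℂ m g _ rfl
  · obtain ⟨C', hC', rfl⟩ := isClosed_induced_iff.1 hC
    have h1 : IsClosed (g.1 ⁻¹' C') := hC'.preimage g.1.continuous
    obtain ⟨s, hs⟩ := (PrimeSpectrum.isClosed_iff_zeroLocus_ideal _).1 h1
    refine ⟨s, fun m => ?_⟩
    rw [Set.mem_preimage, AT2.pt_ptOf]
    change PrimeSpectrum.comap (m : R →+* ℂ) (IsLocalRing.closedPoint ℂ) ∈ g.1 ⁻¹' C' ↔ _
    rw [hs]
    change (s : Set R) ⊆ ((PrimeSpectrum.comap (m : R →+* ℂ)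
      (IsLocalRing.closedPoint ℂ)).asIdeal : Set R) ↔ _
    constructor
    · intro h2 c hc
      exact (AT2.mem_comap m c).1 (h2 hc)
    · intro h2 c hc
      exact (AT2.mem_comap m c).2 (h2 c hc)
  · have h1 : ptOf H g '' {m : R →ₐ[ℂ] ℂ | m b ≠ 0} =
        H.pt ⁻¹' (g.1 '' (PrimeSpectrum.basicOpen b : Set (PrimeSpectrum R))) := by
      ext J
      constructor
      · rintro ⟨m, hm, rfl⟩
        rw [Set.mem_preimage, AT2.pt_ptOf]
        refine ⟨_, ?_, rfl⟩
        change b ∉ (PrimeSpectrum.comap (m : R →+* ℂ) (IsLocalRing.closedPoint ℂ)).asIdeal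
        intro h2
        exact hm ((AT2.mem_comap m b).1 h2)
      · rintro ⟨y, hy, hyJ⟩
        obtain ⟨m, rfl⟩ := AT2.exists_hom H g hg J ⟨y, hyJ⟩
        refine ⟨m, ?_, rfl⟩
        rw [AT2.pt_ptOf] at hyJ
        have h3 := g.1.isOpenEmbedding.injective hyJ
        subst h3
        have hy' : b ∉ (PrimeSpectrum.comap (m : R →+* ℂ)
          (IsLocalRing.closedPoint ℂ)).asIdeal := hy
        intro h2
        exact hy' ((AT2.mem_comap m b).2 h2)
    rw [h1]
    refine IsOpen.preimage continuous_induced_dom ?_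
    exact g.1.isOpenEmbedding.isOpenMap _ (PrimeSpectrum.basicOpen b).isOpen

end BorderVSP
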