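import Pool.Agent.T2h12.SL.Stm

open MvPolynomial CategoryTheory AlgebraicGeometry

namespace BorderVSP

namespace AT3

lemma ptOf_injective {D : CoxData} {h : D.A → ℕ} (H : HilbScheme D h) {R : Type} [CommRing R]
    [Algebra ℂ R] (g : Points H.X H.s R) [IsOpenImmersion g.1] :
    Function.Injective (ptOf H g) := by
  intro m m' hmm
  have h1 := (H.Φ ℂ).injective hmm
  have h2 : Spec.map (CommRingCat.ofHom (m : R →+* ℂ)) ≫ g.1 =
      Spec.map (CommRingCat.ofHom (m' : R →+* ℂ)) ≫ g.1 := congrArg Subtype.val h1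
  rw [cancel_mono] at h2
  have h3 := Spec.map_injective h2
  apply AlgHom.ext
  intro x
  exact congrArg (fun f : CommRingCat.of R ⟶ CommRingCat.of ℂ => f.hom x) h3

/-- the restriction of a point to a quotient -/
noncomputable def restr {D : CoxData} {h : D.A → ℕ} (H : HilbScheme D h) {R : Type} [CommRing R]
    [Algebra ℂ R] (g : Points H.X H.s R) (𝔞 : Ideal R) : Points H.X H.s (R ⧸ 𝔞) :=
  ⟨Spec.map (CommRingCat.ofHom (Ideal.Quotient.mkₐ ℂ 𝔞 : R →+* R ⧸ 𝔞)) ≫ g.1, by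
    rw [Category.assoc, g.2, ← Spec.map_comp, ← CommRingCat.ofHom_comp]
    congr 2⟩

lemma ptOf_restr {D : CoxData} {h : D.A → ℕ} (H : HilbScheme D h) {R : Type} [CommRing R]
    [Algebra ℂ R] (g : Points H.X H.s R) (𝔞 : Ideal R) (m : (R ⧸ 𝔞) →ₐ[ℂ] ℂ) :
    ptOf H (restr H g 𝔞) m = ptOf H g (m.comp (Ideal.Quotient.mkₐ ℂ 𝔞)) := by
  unfold ptOf restr
  congr 1
  apply Subtype.ext
  change Spec.map (CommRingCat.ofHom (m : R ⧸ 𝔞 →+* ℂ)) ≫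
    Spec.map (CommRingCat.ofHom (Ideal.Quotient.mkₐ ℂ 𝔞 : R →+* R ⧸ 𝔞)) ≫ g.1 =
    Spec.map (CommRingCat.ofHom ((m.comp (Ideal.Quotient.mkₐ ℂ 𝔞) : R →ₐ[ℂ] ℂ) : R →+* ℂ)) ≫ g.1
  rw [← Category.assoc, ← Spec.map_comp, ← CommRingCat.ofHom_comp]
  rfl

end AT3

theorem t_AT3 (hAT2 : S_AT2) : S_AT3 := by
  intro D h H r hirr R _ _ _ g hg hex
  have hclosed : IsClosed (H.Slip r) := isClosed_closure
  obtain ⟨-, hC, hO⟩ := hAT2 D h H R g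
  obtain ⟨hfac, hopen⟩ := hO hg
  obtain ⟨𝔠, h𝔠⟩ := hC _ hclosed
  -- the ideal
  let 𝔞 : Ideal R :=
    { carrier := {c | ∀ m : R →ₐ[ℂ] ℂ, ptOf H g m ∈ H.Slip r → m c = 0}
      add_mem' := by
        intro a b ha hb m hm
        rw [map_add, ha m hm, hb m hm, add_zero]
      zero_mem' := fun m _ => map_zero m
      smul_mem' := by
        intro c a ha m hm
        rw [smul_eq_mul, map_mul, ha m hm, mul_zero] }
  have h𝔞 : ∀ c, c ∈ 𝔞 ↔ ∀ m : R →ₐ[ℂ] ℂ, ptOf H g m ∈ H.Slip r → m c = 0 := fun c => Iff.rfl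
  have h𝔠𝔞 : 𝔠 ≤ 𝔞 := fun c hc m hm => (h𝔠 m).1 hm c hc
  have hkill : ∀ m : R →ₐ[ℂ] ℂ, ptOf H g m ∈ H.Slip r ↔ ∀ c ∈ 𝔞, m c = 0 := by
    intro m
    constructor
    · intro hm c hc
      exact hc m hm
    · intro hm
      exact (h𝔠 m).2 fun c hc => hm c (h𝔠𝔞 hc)
  have hprime : 𝔞.IsPrime := by
    refine ⟨?_, ?_⟩
    · rw [Ideal.ne_top_iff_one]
      intro h1
      obtain ⟨J, hJ, hJ'⟩ := hex
      obtain ⟨m, rfl⟩ := hfac J hJ'
      have := h1 m hJ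
      rw [map_one] at this
      exact one_ne_zero this
    · intro c d hcd
      by_contra hne
      rw [not_or] at hne
      obtain ⟨hc, hd⟩ := hne
      rw [h𝔞] at hc hd
      push Not at hc hd
      obtain ⟨m1, hm1, hc1⟩ := hc
      obtain ⟨m2, hm2, hd2⟩ := hd
      obtain ⟨J, hJ, hJ1, hJ2⟩ := hirr.2 _ _ (hopen c) (hopen d) ⟨_, hm1, m1, hc1, rfl⟩
        ⟨_, hm2, m2, hd2, rfl⟩
      obtain ⟨m, hm, rfl⟩ := hJ1
      obtain ⟨m', hm', hmm⟩ := hJ2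
      have := AT3.ptOf_injective H g hmm
      subst this
      have h1 := hcd m' hJ
      rw [map_mul] at h1
      rcases mul_eq_zero.1 h1 with h2 | h2
      · exact hm h2
      · exact hm' h2
  have hlift : ∀ m : R →ₐ[ℂ] ℂ, ptOf H g m ∈ H.Slip r →
      ∃ m' : (R ⧸ 𝔞) →ₐ[ℂ] ℂ, m'.comp (Ideal.Quotient.mkₐ ℂ 𝔞) = m := by
    intro m hm
    refine ⟨Ideal.Quotient.liftₐ 𝔞 m fun c hc => (hkill m).1 hm c hc, ?_⟩
    apply AlgHom.ext
    intro x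
    rfl
  have hslip : ∀ m' : (R ⧸ 𝔞) →ₐ[ℂ] ℂ,
      ptOf H g (m'.comp (Ideal.Quotient.mkₐ ℂ 𝔞)) ∈ H.Slip r := by
    intro m'
    rw [hkill]
    intro c hc
    have : Ideal.Quotient.mkₐ ℂ 𝔞 c = 0 := Ideal.Quotient.eq_zero_iff_mem.2 hc
    rw [AlgHom.comp_apply, this, map_zero]
  haveI : 𝔞.IsPrime := hprime
  obtain ⟨hid', hC', -⟩ := hAT2 D h H (R ⧸ 𝔞) (AT3.restr H g 𝔞)
  refine ⟨
    { R := R ⧸ 𝔞
      finiteType := inferInstance
      isDomain := Ideal.Quotient.isDomain 𝔞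
      I := (H.Φ (R ⧸ 𝔞) (AT3.restr H g 𝔞)).1
      mem := (H.Φ (R ⧸ 𝔞) (AT3.restr H g 𝔞)).2
      p := ptOf H (AT3.restr H g 𝔞)
      ideal_p := hid'
      mem_slip := fun m' => by
        rw [AT3.ptOf_restr]
        exact hslip m'
      openSet := ?_
      closedSet := hC'
      dense := ?_ }, ?_⟩
  · intro b'
    obtain ⟨b, rfl⟩ := Ideal.Quotient.mk_surjective b'
    refine ⟨_, hopen b, ?_⟩
    ext J
    constructor
    · rintro ⟨⟨m, hm, rfl⟩, hJ⟩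
      obtain ⟨m', rfl⟩ := hlift m hJ
      exact ⟨m', hm, AT3.ptOf_restr H g 𝔞 m'⟩
    · rintro ⟨m', hm', rfl⟩
      rw [AT3.ptOf_restr]
      exact ⟨⟨_, hm', rfl⟩, hslip m'⟩
  · intro c' hc'
    obtain ⟨c, rfl⟩ := Ideal.Quotient.mk_surjective c'
    rw [Ideal.Quotient.eq_zero_iff_mem]
    by_contra hc
    rw [h𝔞] at hc
    push Not at hc
    obtain ⟨m1, hm1, hc1⟩ := hc
    have h1 := mem_closure_iff.1 hm1 _ (hopen c) ⟨m1, hc1, rfl⟩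
    obtain ⟨J, ⟨m, hm, rfl⟩, x, hx1, hx2, hx3⟩ := h1
    have hJ : ptOf H g m ∈ H.Slip r := subset_closure ⟨x, hx1, hx2, hx3⟩
    obtain ⟨m', rfl⟩ := hlift m hJ
    apply hm
    refine hc' m' ⟨x, hx1, ?_⟩
    rw [← hid', AT3.ptOf_restr]
    exact hx3
  · intro J hJ hJ'
    obtain ⟨m, rfl⟩ := hfac J hJ'
    obtain ⟨m', rfl⟩ := hlift m hJ
    exact ⟨m', AT3.ptOf_restr H g 𝔞 m'⟩

end BorderVSP
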