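import Pool.Agent.T2h12.SL.Stm

/-!
# Project SL, task ATL: finitely many charts
-/

open MvPolynomial CategoryTheory AlgebraicGeometry

namespace BorderVSP

theorem t_ATL (h1 : S_AT1) (h3 : S_AT3) : S_ATL := by
  classical
  intro D h H r hirr
  obtain ⟨k, R, _, _, g, hft, hoi, hcov⟩ := h1 H.X H.s H.locallyOfFiniteType H.compact
  have hch : ∀ i, (∃ J ∈ H.Slip r, H.pt J ∈ Set.range (g i).1) →
      ∃ ch : Chart H r, ∀ J ∈ H.Slip r, H.pt J ∈ Set.range (g i).1 → ∃ m, ch.p m = J := by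
    intro i hi
    have := hft i
    exact h3 D h H r hirr (R i) (g i) (hoi i) hi
  obtain ⟨J0, hJ0⟩ := hirr.nonempty
  obtain ⟨i0, hi0⟩ := hcov (H.pt J0)
  obtain ⟨ch0, -⟩ := hch i0 ⟨J0, hJ0, hi0⟩
  have hch' : ∀ i, ∃ ch : Chart H r,
      ∀ J ∈ H.Slip r, H.pt J ∈ Set.range (g i).1 → ∃ m, ch.p m = J := by
    intro i
    by_cases hi : ∃ J ∈ H.Slip r, H.pt J ∈ Set.range (g i).1
    · exact hch i hi
    · exact ⟨ch0, fun J hJ hJ' => absurd ⟨J, hJ, hJ'⟩ hi⟩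
  choose ch hch' using hch'
  refine ⟨k, ch, fun J hJ => ?_⟩
  obtain ⟨i, hi⟩ := hcov (H.pt J)
  exact ⟨i, hch' i J hJ hi⟩

end BorderVSP
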