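import Mathlib
import Pool.Agent.T2h12.SL.Defs

/-!
# Project SL (MP_02af42_ag): all components of the border VSP of a general point of a secant
variety have saturated general points

`MvPolynomial.map (m : R →+* ℂ)` for `m : R →ₐ[ℂ] ℂ`: specialisation of the coefficients; the
fibre of a family `I` of ideals over `R` at the point `m` is `fib m I`.
-/

open MvPolynomial CategoryTheory AlgebraicGeometry

namespace BorderVSP

/-! ## Part 1: commutative algebra -/

/-- The localisation of `N` at the powers of `f` is flat over `R`, in the form of the equational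
criterion. -/
def FlatAt {R : Type} [CommRing R] (N : Type) [AddCommGroup N] [Module R N] (f : R) : Prop :=
  ∀ (k : ℕ) (a : Fin k → R) (y : Fin k → N), ∑ i, a i • y i = 0 →
    ∃ (e l : ℕ) (b : Fin k → Fin l → R) (z : Fin l → N),
      (∀ i, f ^ e • y i = ∑ j, b i j • z j) ∧ ∀ j, ∑ i, a i * b i j = 0

/-- GF1 (general).  Permanence of `FlatAt`.
(1) Multiples: multiply by a power.  (2) Linear equivalences.
(3) Extensions: given a relation `∑ a_i y_i = 0` in `N`, use the criterion in `N ⧸ K` and lift: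
`f^e y_i = ∑ b_ij z_j + k_i`, `k_i ∈ K`, `∑_i a_i b_ij = 0`, so `∑ a_i k_i = 0` in `K`; apply the
criterion in `K` and add up.  (4) Unions of chains: the finitely many `y_i` lie in one member.
(5) `R` a Noetherian domain, `N` finite: for some `f ≠ 0` the localisation `N_f` is free
(`Module.FinitePresentation.exists_free_localizedModule_powers` with the fraction field, compare
`generic_flat` in `Pool/Agent/W456/CA2.lean`), and a free (flat) module satisfies the equational
criterion (`Module.Flat.iff_forall_isTrivialRelation` or the basis); descend from `N_f` to `N` by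
multiplying with a power of `f`.  (Alternative for (5): prime filtration or induction on the number
of generators with (3): a cyclic module `R ⧸ J` is free if `J = 0` and is killed by some
`f ≠ 0` otherwise, and then `FlatAt` is trivial: `f^1 y_i = 0`.) -/
def S_GF1 : Prop :=
  (∀ (R : Type) [CommRing R] (N : Type) [AddCommGroup N] [Module R N] (f g : R),
    FlatAt N f → FlatAt N (f * g)) ∧
  (∀ (R : Type) [CommRing R] (N N' : Type) [AddCommGroup N] [Module R N] [AddCommGroup N']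
    [Module R N'] (_ : N ≃ₗ[R] N') (f : R), FlatAt N f → FlatAt N' f) ∧
  (∀ (R : Type) [CommRing R] (N : Type) [AddCommGroup N] [Module R N] (K : Submodule R N) (f : R),
    FlatAt K f → FlatAt (N ⧸ K) f → FlatAt N f) ∧
  (∀ (R : Type) [CommRing R] (N : Type) [AddCommGroup N] [Module R N] (K : ℕ → Submodule R N)
    (f : R), Monotone K → (∀ y, ∃ i, y ∈ K i) → (∀ i, FlatAt (K i) f) → FlatAt N f) ∧
  (∀ (R : Type) [CommRing R] [IsDomain R] [IsNoetherianRing R] (N : Type) [AddCommGroup N]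
    [Module R N] [Module.Finite R N], ∃ f : R, f ≠ 0 ∧ FlatAt N f)

/-- GFR (from GF1).  Grothendieck's generic flatness.  `P` is a quotient of
`MvPolynomial (Fin k) R`, so `N` is a finite module over that ring: induction on `k`
(`k = 0`: GF1 (5)).  Step `P = P'[x]` (`P'` = polynomials in the first `k` variables): let `N0` be
the `P'`-submodule generated by a finite set of generators of `N`, `N_i = ∑_{j ≤ i} x^j N0`, so
`N = ⋃ N_i`, `N_{i+1} / N_i` is a quotient of `N0` by `K_i = {m ∈ N0 | x^{i+1} m ∈ N_i}`, an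
increasing sequence of `P'`-submodules of the Noetherian `P'`-module `N0`, so it is stationary.
By induction there is `f_i ≠ 0` with `FlatAt (N0 / K_i) f_i` for each of the finitely many
different `K_i` and `f` for `N0` itself; for the product, all `N_i` are `FlatAt` by GF1 (3) and
induction, and so is the union, GF1 (4).  (It may be convenient to prove by induction on `k` the
statement for all `R`-modules `N` with `k` commuting endomorphisms that generate it from a finite
set.) -/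
def S_GFR : Prop :=
  ∀ (R P N : Type) [CommRing R] [IsDomain R] [IsNoetherianRing R] [CommRing P] [Algebra R P]
    [Algebra.FiniteType R P] [AddCommGroup N] [Module R N] [Module P N] [IsScalarTower R P N]
    [Module.Finite P N], ∃ f : R, f ≠ 0 ∧ FlatAt N f

/-- ZDL (general).  Let `g x = ∑ a_i y_i`, `a_i ∈ 𝔪`.  In `N = M ⧸ range g` we have
`∑ a_i ȳ_i = 0`, so `f^e y_i = ∑_j b_ij z_j + g u_i` with `∑_i a_i b_ij = 0`, so
`g (f^e x) = ∑ a_i g u_i = g (∑ a_i u_i)`, `f^e x = ∑ a_i u_i ∈ 𝔪 M`; as `f^e` is invertible modulo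
`𝔪`, `x ∈ 𝔪 M`. -/
def S_ZDL : Prop :=
  ∀ (R M : Type) [CommRing R] [AddCommGroup M] [Module R M] (g : M →ₗ[R] M),
    Function.Injective g → ∀ f : R, FlatAt (M ⧸ LinearMap.range g) f →
    ∀ 𝔪 : Ideal R, 𝔪.IsMaximal → f ∉ 𝔪 → ∀ x : M,
      g x ∈ 𝔪 • (⊤ : Submodule R M) → x ∈ 𝔪 • (⊤ : Submodule R M)

/-- INJ (general).  A homomorphism of finite projective modules over a domain that is injective
modulo one maximal ideal is injective.  Localise at `𝔪`: `φ_𝔪` is a homomorphism of finite free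
modules over a local ring, injective on the fibre, so it is split injective
(`IsLocalRing.split_injective_iff_lTensor_residueField_injective` or by a determinant), and
`M → M_𝔪` is injective as `M` is torsion free.  (Alternative: let `x ≠ 0`, `φ x = 0`.
`M ⊕ M' ≅ R^k`, ... ) -/
def S_INJ : Prop :=
  ∀ (R M N : Type) [CommRing R] [IsDomain R] [AddCommGroup M] [Module R M] [AddCommGroup N]
    [Module R N] [Module.Finite R M] [Module.Projective R M] [Module.Finite R N]
    [Module.Projective R N] (φ : M →ₗ[R] N) (𝔪 : Ideal R), 𝔪.IsMaximal →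
    (∀ x : M, φ x ∈ 𝔪 • (⊤ : Submodule R N) → x ∈ 𝔪 • (⊤ : Submodule R M)) →
    Function.Injective φ

/-! ## Part 2: the general fibre is saturated -/

/-- The fibre at the point `m` of the family `I`. -/
noncomputable abbrev fib {n : ℕ} {R : Type} [CommRing R] [Algebra ℂ R] (m : R →ₐ[ℂ] ℂ)
    (I : Ideal (MvPolynomial (Fin n) R)) : Ideal (MvPolynomial (Fin n) ℂ) :=
  I.map (MvPolynomial.map (m : R →+* ℂ))

/-- GEN.  For each `j` there is a cone `σ` with `x j i ≠ 0` for `i ∉ σ`, so the monomial of degree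
`v` with support `σᶜ` (ample) does not vanish at `x j`, and it is in `B` (divisible by
`∏ i ∈ σᶜ, X i`).  A general linear combination of these monomials over all `σ` does not vanish at
any `x j` (`Module.Dual.exists_forall_mem_ne_zero_of_forall_exists` or similar: `ℂ` is
infinite). -/
def S_GEN : Prop :=
  ∀ (D : CoxData) (v : D.A), D.IsAmple v → ∀ (r : ℕ) (x : Fin r → Fin D.n → ℂ),
    (∀ j, D.IsPt (x j)) →
    ∃ g : D.S, g ∈ D.B ∧ g ∈ weightedHomogeneousSubmodule ℂ D.w v ∧ ∀ j, eval (x j) g ≠ 0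

/-- MUL (from INJ).  `g p ∈ I`; take homogeneous components: `g p_a ∈ I` for each `a` (`I` is
homogeneous, the component of degree `a + v` of `g p` is `g p_a`), and it is enough to show
`p_a ∈ I`.  Apply INJ to multiplication by `g`, `GradedPiece a → GradedPiece (a + v)`, and
`𝔪 = ker m0`.  If `g p_a ∈ 𝔪 S_{a+v} + I`, then in `ℂ[x]`: `g · m0(p_a) ∈ fib m0 I`, so
`m0(p_a)` vanishes at all `x j` (as `g (x j) ≠ 0`), `m0(p_a) ∈ fib m0 I` (it is homogeneous),
`m0(p_a) = m0(q)` for some `q ∈ I` (`map m0` is surjective; take its component of degree `a`),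
`p_a - q ∈ 𝔪 S_a` (coefficients in the kernel of `m0`). -/
def S_MUL : Prop :=
  ∀ (D : CoxData) (v : D.A) (h : D.A → ℕ) (R : Type) [CommRing R] [IsDomain R] [Algebra ℂ R]
    (I : Ideal (MvPolynomial (Fin D.n) R)), I ∈ hilb D.w h R →
    ∀ (m0 : R →ₐ[ℂ] ℂ) (r : ℕ) (x : Fin r → Fin D.n → ℂ), D.IsIdealOf x (fib m0 I) →
    ∀ g : D.S, g ∈ weightedHomogeneousSubmodule ℂ D.w v → (∀ j, eval (x j) g ≠ 0) →
    ∀ p : MvPolynomial (Fin D.n) R, MvPolynomial.map (algebraMap ℂ R) g * p ∈ I → p ∈ I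

/-- SA1 (from GFR, ZDL).  `M = R[x] / I`, `P = R[x]`, `N = M / g M`: generic flatness gives `b ≠ 0`
with `FlatAt N b`.  Let `m b ≠ 0`, `𝔪 = ker m`, `g q ∈ fib m I`, `q' = map (algebraMap) q`.  Then
`g q' - p ∈ ker (map m) = 𝔪 R[x]` for some `p ∈ I`, so `g [q'] ∈ 𝔪 M`, by ZDL `[q'] ∈ 𝔪 M`,
`q' ∈ 𝔪 R[x] + I`, and `q = m(q') ∈ fib m I`. -/
def S_SA1 : Prop :=
  ∀ (n : ℕ) (R : Type) [CommRing R] [IsDomain R] [Algebra ℂ R] [Algebra.FiniteType ℂ R]
    (I : Ideal (MvPolynomial (Fin n) R)) (g : MvPolynomial (Fin n) ℂ),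
    (∀ p : MvPolynomial (Fin n) R, MvPolynomial.map (algebraMap ℂ R) g * p ∈ I → p ∈ I) →
    ∃ b : R, b ≠ 0 ∧ ∀ m : R →ₐ[ℂ] ℂ, m b ≠ 0 →
      ∀ q : MvPolynomial (Fin n) ℂ, g * q ∈ fib m I → q ∈ fib m I

/-- SAT (from GEN, MUL, SA1).  If `g ∈ B` and `g q ∈ J → q ∈ J`, then `J` is saturated:
`B^N q ⊆ J` gives `g^N q ∈ J`. -/
def S_SAT : Prop :=
  ∀ (D : CoxData) (v : D.A), D.IsAmple v → ∀ (h : D.A → ℕ) (R : Type) [CommRing R] [IsDomain R]
    [Algebra ℂ R] [Algebra.FiniteType ℂ R] (I : Ideal (MvPolynomial (Fin D.n) R)),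
    I ∈ hilb D.w h R →
    ∀ (m0 : R →ₐ[ℂ] ℂ) (r : ℕ) (x : Fin r → Fin D.n → ℂ), (∀ j, D.IsPt (x j)) →
    D.IsIdealOf x (fib m0 I) →
    ∃ b : R, b ≠ 0 ∧ ∀ m : R →ₐ[ℂ] ℂ, m b ≠ 0 → D.Saturated (fib m I)

/-! ## Part 3: the incidence variety over a chart -/

/-- The linear form with coefficients `u`. -/
noncomputable def lin {ι R : Type} [Fintype ι] [CommRing R] (u : ι → R) : MvPolynomial ι R :=
  ∑ e, C (u e) * X e

/-- SYM (general).  `q` exists because `(ι → R) ⧸ L` is projective (the quotient map splits).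
`ρ` is defined by `ρ (X e) = lin (q (single e 1))`, so `ρ (lin u) = lin (q u)` and `ρ ∘ ρ = ρ`.
`lin u ∈ ker ρ` for `u ∈ L`.  Conversely modulo the ideal generated by `lin u`, `u ∈ L`,
`ρ (X e) ≡ X e` as `single e 1 - q (single e 1) ∈ ker q = L`, so `ρ p ≡ p` for all `p`, and `p` is in
the ideal if `ρ p = 0`. -/
def S_SYM : Prop :=
  ∀ (R ι : Type) [CommRing R] [Fintype ι] [DecidableEq ι] (L : Submodule R (ι → R)),
    Module.Projective R ((ι → R) ⧸ L) →
    ∃ (q : (ι → R) →ₗ[R] (ι → R)) (ρ : MvPolynomial ι R →ₐ[R] MvPolynomial ι R),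
      (∀ u, q (q u) = q u) ∧ LinearMap.ker q = L ∧
      (∀ e, ρ (X e) = lin (q (Pi.single e 1))) ∧
      RingHom.ker ρ = Ideal.span {p | ∃ u ∈ L, p = lin u}

/-- The degree `v` part of the ideal, in coordinates. -/
noncomputable def Lv {D : CoxData} (v : D.A) {R : Type} [CommRing R]
    (I : Ideal (MvPolynomial (Fin D.n) R)) : Submodule R (D.Mon v → R) where
  carrier := {u | ∑ e : D.Mon v, monomial e.1 (u e) ∈ I}
  add_mem' := by
    intro u u' h h'
    simp only [Set.mem_setOf_eq, Pi.add_apply, map_add, Finset.sum_add_distrib] at *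
    exact I.add_mem h h'
  zero_mem' := by simp
  smul_mem' := by
    intro c u h
    simp only [Set.mem_setOf_eq, Pi.smul_apply, smul_eq_mul] at *
    have h1 : ∑ e : D.Mon v, monomial e.1 (c * u e) =
        C c * ∑ e : D.Mon v, monomial e.1 (u e) := by
      rw [Finset.mul_sum]
      exact Finset.sum_congr rfl fun e _ => by rw [C_mul_monomial]
    rw [h1]
    exact I.mul_mem_left _ h

/-- LPR.  `(D.Mon v → R) ⧸ Lv v I ≅ GradedPiece D.w I v` (the homogeneous polynomials of degree `v`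
are the `∑ e, monomial e (u e)`). -/
def S_LPR : Prop :=
  ∀ (D : CoxData) (v : D.A) (h : D.A → ℕ) (R : Type) [CommRing R]
    (I : Ideal (MvPolynomial (Fin D.n) R)), I ∈ hilb D.w h R →
    Module.Projective R ((D.Mon v → R) ⧸ Lv v I)

/-- APO.  (1) `J ⊆ Ann F` if and only if `F` vanishes on `J`.  (2) For a homogeneous ideal `I` over
`R` and `m : R →ₐ[ℂ] ℂ`: `F` vanishes on `fib m I` if and only if `∑ e, m (u e) F e = 0` for all
`u ∈ Lv v I` (`fib m I` is the image of `I` as `map m` is surjective; take the component of degree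
`v` of an element of `I`). -/
def S_APO : Prop :=
  (∀ (D : CoxData) (v : D.A) (F : D.T v) (J : Ideal D.S),
    (∀ g ∈ J, g ∈ CoxData.Ann F) ↔ ∀ g ∈ J, CoxData.pair F g = 0) ∧
  (∀ (D : CoxData) (v : D.A) (F : D.T v) (R : Type) [CommRing R] [Algebra ℂ R]
    (I : Ideal (MvPolynomial (Fin D.n) R)),
    (∀ g ∈ I, ∀ a, weightedHomogeneousComponent D.w a g ∈ I) → ∀ m : R →ₐ[ℂ] ℂ,
    (∀ g ∈ fib m I, CoxData.pair F g = 0) ↔ ∀ u ∈ Lv v I, ∑ e, m (u e) * F e = 0)

/-- Density of the ideals of `r` points in the chart. -/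
def DenseE (D : CoxData) (r : ℕ) (R : Type) [CommRing R] [Algebra ℂ R]
    (I : Ideal (MvPolynomial (Fin D.n) R)) : Prop :=
  ∀ c : R, (∀ m : R →ₐ[ℂ] ℂ, (∃ x : Fin r → Fin D.n → ℂ, (∀ j, D.IsPt (x j)) ∧
    D.IsIdealOf x (fib m I)) → m c = 0) → c = 0

/-- PRI (from SYM, LPR).  By SYM it is enough that `ρ (map f) = 0` in `MvPolynomial (Mon v) R`; by
density it is enough that all its coefficients are killed by each `m` such that `fib m I` is the
ideal of points `x j`, i.e. that `m (ρ (map f)) = 0` in `MvPolynomial (Mon v) ℂ`, and (`ℂ` is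
infinite, `MvPolynomial.funext`) that its value at each `τ` is zero.  This value is `f (F)` with
`F e = ∑_{e'} m (q (single e 1) e') τ e'`, so `∑ u_e F_e = τ (m (q u))` for `u` with entries in `ℂ`
or `R`.  `F` vanishes on the degree `v` part of `fib m I`: it is spanned by `m (u)`, `u ∈ Lv v I`
(`fib m I` is the image of `I`), and `q u = 0`.  The degree `v` part of `fib m I` is the set of
the `u` with `∑ u_e (ev v (x j))_e = 0` for all `j` (`IsIdealOf`), so `F` is a linear combination of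
the `ev v (x j)` (`mem_span_of_iInf_ker_le_ker`), and `f (F) = 0` as `F ∈ secant v r`. -/
def S_PRI : Prop :=
  ∀ (D : CoxData) (v : D.A) (h : D.A → ℕ) (R : Type) [CommRing R] [IsDomain R] [Algebra ℂ R]
    (I : Ideal (MvPolynomial (Fin D.n) R)), I ∈ hilb D.w h R → ∀ r : ℕ, DenseE D r R I →
    ∀ f : MvPolynomial (D.Mon v) ℂ, (∀ F ∈ CoxData.secant v r, eval F f = 0) →
      MvPolynomial.map (algebraMap ℂ R) f ∈ Ideal.span {p | ∃ u ∈ Lv v I, p = lin u}

/-- PRM.  `P` = the set of the `f` that vanish on `secant v r`, equivalently on all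
`∑ c_j ev v (x j)` with `IsPt (x j)`.  It is the kernel of the homomorphism
`MvPolynomial (Mon v) ℂ → MvPolynomial (Fin r × Option (Fin n)) ℂ`, `X e ↦ ∑_j c_j x_j^e` (a domain):
if `f ∈ P`, the image of `f` multiplied by `∏_j ∏_i x_{j,i}` vanishes at every point with all
coordinates nonzero or with some `x_{j,i} = 0`, so it is zero. -/
def S_PRM : Prop :=
  ∀ (D : CoxData) (v : D.A) (r : ℕ), ∃ P : Ideal (MvPolynomial (D.Mon v) ℂ), P.IsPrime ∧
    (∀ f, f ∈ P ↔ ∀ F ∈ CoxData.secant v r, eval F f = 0) ∧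
    ∀ F : D.T v, F ∈ CoxData.secant v r ↔ ∀ f ∈ P, eval F f = 0

/-- COR (from GFR, ZDL, SYM, LPR, APO, PRI, PRM).  Let `𝔏` be the ideal of SYM for `L = Lv v I`,
prime because it is the kernel of `ρ` and the target is a domain, `𝔅 = MvPolynomial (Mon v) R ⧸ 𝔏`,
`Q` = the kernel of `MvPolynomial (Mon v) ℂ → 𝔅`, and `P` from PRM.  `P ⊆ Q` by PRI.
If `F` vanishes on `fib m I`, then `(m, F)` defines a homomorphism `𝔅 → ℂ` (APO (2)), so all elements
of `Q` vanish at `F`.
Case 1: there is `f ∈ Q`, `f ∉ P`.  This `f` works: there is no such `m` if `f (F) ≠ 0`.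
Case 2: `Q = P`.  `A = MvPolynomial (Mon v) ℂ ⧸ P` is a Noetherian domain and embeds into `𝔅`;
`b ≠ 0` in `𝔅` (put `T = 0`: `𝔏 ∩ R = 0`).  GFR for `A`, `𝔅` and `N = 𝔅 ⧸ b 𝔅` gives
`f ∉ P`.  Let `F ∈ secant v r`, `f (F) ≠ 0`, `𝔪_F ⊂ A` the maximal ideal of `F`.  ZDL:
`b y ∈ 𝔪_F 𝔅 → y ∈ 𝔪_F 𝔅`.  Let `𝔞 ⊆ R` be the ideal generated by the `∑ u_e F_e`, `u ∈ Lv v I`
(`R` is an algebra over `ℂ`).  Then for `y ∈ R`: `y ∈ 𝔞 ↔ y ∈ 𝔪_F 𝔅`
(`∑ u_e F_e ≡ ∑ u_e (F_e - X_e)` modulo `𝔏`; conversely evaluate at `X = F`).  So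
`b y ∈ 𝔞 → y ∈ 𝔞`.  Now `m` kills `𝔞` iff `F` vanishes on `fib m I` (APO (2)).  If `c` is killed by
all such `m` with `m b ≠ 0`, then `b c` is killed by all `m` that kill `𝔞`, so `(b c)^N ∈ 𝔞`
(Nullstellensatz: `R` is Jacobson and its residue fields are `ℂ`), so `c^N ∈ 𝔞`. -/
def S_COR : Prop :=
  ∀ (D : CoxData) (v : D.A) (h : D.A → ℕ) (R : Type) [CommRing R] [IsDomain R] [Algebra ℂ R]
    [Algebra.FiniteType ℂ R] (I : Ideal (MvPolynomial (Fin D.n) R)), I ∈ hilb D.w h R →
    ∀ r : ℕ, DenseE D r R I → ∀ b : R, b ≠ 0 →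
    ∃ f : MvPolynomial (D.Mon v) ℂ, (∃ F ∈ CoxData.secant v r, eval F f ≠ 0) ∧
      ∀ F ∈ CoxData.secant v r, eval F f ≠ 0 →
        ∀ c : R, (∀ m : R →ₐ[ℂ] ℂ, (∀ g ∈ fib m I, CoxData.pair F g = 0) → m b ≠ 0 → m c = 0) →
          ∀ m : R →ₐ[ℂ] ℂ, (∀ g ∈ fib m I, CoxData.pair F g = 0) → m c = 0

/-- BRK (from PRM).  `secant v r' ⊆ secant v r` for `r' ≤ r` (coefficients `0`, the point
`(1, …, 1)`).  `r0` = the least number with `secant v r0 = secant v r`; `r0 ≥ 1` because
`secant v 0 = {0}` and `ev v (1, …, 1) ≠ 0` (there is a monomial of degree `v` as `v` is ample).  For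
`r' < r0` there is `f_r'` that vanishes on `secant v r'` but not on `secant v r`; take the
product of the `f_r'` (PRM: `P` is prime). -/
def S_BRK : Prop :=
  ∀ (D : CoxData) (v : D.A), D.IsAmple v → ∀ r : ℕ, 1 ≤ r →
    ∃ r0 : ℕ, 1 ≤ r0 ∧ CoxData.secant v r0 = CoxData.secant v r ∧
      ∃ f : MvPolynomial (D.Mon v) ℂ, (∃ F ∈ CoxData.secant v r, eval F f ≠ 0) ∧
        ∀ F ∈ CoxData.secant v r, eval F f ≠ 0 → CoxData.borderRank F = r0

/-! ## Part 4: charts of the Hilbert scheme -/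

/-- AT1.  Finite affine cover of the scheme (`Scheme.affineCover`, `CompactSpace`), the rings are
`ℂ`-algebras of finite type, the maps are morphisms over `ℂ` (the algebra structure is the one
induced by `s`). -/
def S_AT1 : Prop :=
  ∀ (X : Scheme.{0}) (s : X ⟶ Spec (CommRingCat.of ℂ)), LocallyOfFiniteType s → CompactSpace X →
    ∃ (k : ℕ) (R : Fin k → Type) (_ : ∀ i, CommRing (R i)) (_ : ∀ i, Algebra ℂ (R i))
      (g : ∀ i, Points X s (R i)), (∀ i, Algebra.FiniteType ℂ (R i)) ∧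
      (∀ i, IsOpenImmersion (g i).1) ∧ ∀ x : X, ∃ i, x ∈ Set.range (g i).1

/-- The point of the Hilbert scheme given by a homomorphism `R → ℂ` and `g : Spec R → X`. -/
noncomputable def ptOf {D : CoxData} {h : D.A → ℕ} (H : HilbScheme D h) {R : Type} [CommRing R]
    [Algebra ℂ R] (g : Points H.X H.s R) (m : R →ₐ[ℂ] ℂ) : H.Pts :=
  H.Φ ℂ ⟨Spec.map (CommRingCat.ofHom (m : R →+* ℂ)) ≫ g.1, by
    rw [Category.assoc, g.2, ← Spec.map_comp, ← CommRingCat.ofHom_comp]
    congr 2
    exact m.comp_algebraMap⟩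

/-- AT2.  (1) naturality of `Φ`.  (2) `ptOf g m` is mapped by `H.pt` to the image under `g` of the
point `ker m` of `Spec R`.  (3) If `g` is an open immersion, each `ℂ`-point of `X` with image in the
range of `g` factors through `g`, hence is `ptOf g m` for some `m`; so the image of
`{m | m b ≠ 0}` is the preimage under `H.pt` of the open set `g (D(b))`.  (4) The preimage of a
closed set under `g` is closed in `Spec R`, so it is the zero locus of an ideal. -/
def S_AT2 : Prop :=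
  ∀ (D : CoxData) (h : D.A → ℕ) (H : HilbScheme D h) (R : Type) [CommRing R] [Algebra ℂ R]
    (g : Points H.X H.s R),
    (∀ m : R →ₐ[ℂ] ℂ, H.ideal (ptOf H g m) = fib m (H.Φ R g).1) ∧
    (∀ C : Set H.Pts, IsClosed C → ∃ J : Ideal R, ∀ m : R →ₐ[ℂ] ℂ,
      ptOf H g m ∈ C ↔ ∀ c ∈ J, m c = 0) ∧
    (IsOpenImmersion g.1 → (∀ J : H.Pts, H.pt J ∈ Set.range g.1 → ∃ m, J = ptOf H g m) ∧
      ∀ b : R, IsOpen (ptOf H g '' {m : R →ₐ[ℂ] ℂ | m b ≠ 0}))

/-- A chart of `Slip`: an irreducible affine variety `Spec R` with a family of ideals `I` that is an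
open subset of `Slip`. -/
structure Chart {D : CoxData} {h : D.A → ℕ} (H : HilbScheme D h) (r : ℕ) where
  R : Type
  [commRing : CommRing R]
  [algebra : Algebra ℂ R]
  finiteType : Algebra.FiniteType ℂ R
  isDomain : IsDomain R
  I : Ideal (MvPolynomial (Fin D.n) R)
  mem : I ∈ hilb D.w h R
  p : (R →ₐ[ℂ] ℂ) → H.Pts
  ideal_p : ∀ m, H.ideal (p m) = fib m I
  mem_slip : ∀ m, p m ∈ H.Slip r
  openSet : ∀ b : R, ∃ W : Set H.Pts, IsOpen W ∧ W ∩ H.Slip r = p '' {m | m b ≠ 0}
  closedSet : ∀ C : Set H.Pts, IsClosed C → ∃ J : Ideal R, ∀ m, p m ∈ C ↔ ∀ c ∈ J, m c = 0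
  dense : DenseE D r R I

attribute [instance] Chart.commRing Chart.algebra

/-- AT3 (from AT2).  Let `g : Spec R → X` be an open immersion (point of `X` over the finite type
algebra `R`) whose range contains some `H.pt J`, `J ∈ Slip`.  Let
`𝔞 = {c ∈ R | m c = 0 for all m with ptOf g m ∈ Slip}`, `R' = R ⧸ 𝔞`, `g' = Spec R' → Spec R → X`,
`I' = Φ R' g'`.  By AT2 (2) (Slip is closed; `R` is Jacobson) `m` factors through `R'` iff
`ptOf g m ∈ Slip`.  `𝔞` is prime: if `c d ∈ 𝔞`, the open sets `ptOf g '' D(c)` and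
`ptOf g '' D(d)` (AT2 (3)) do not meet on `Slip`, so one of them does not meet `Slip` as `Slip` is
irreducible; `𝔞 ≠ ⊤`.  `openSet`: lift `b` to `R`.  `closedSet`: AT2 (2) for `g'`.  `dense`: let
`c ∈ R'`, lifted to `R`, be killed by all `m` such that the fibre is an ideal of points; if
`c ∉ 𝔞`, the open set `ptOf g '' D(c)` meets `Slip`, the closure of `E`, so it meets `E`, which gives
`m` with `m c ≠ 0` and `ptOf g m ∈ E ⊆ Slip`, contradiction. -/
def S_AT3 : Prop :=
  ∀ (D : CoxData) (h : D.A → ℕ) (H : HilbScheme D h) (r : ℕ), IsIrreducible (H.Slip r) →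
    ∀ (R : Type) [CommRing R] [Algebra ℂ R] [Algebra.FiniteType ℂ R] (g : Points H.X H.s R),
    IsOpenImmersion g.1 → (∃ J ∈ H.Slip r, H.pt J ∈ Set.range g.1) →
    ∃ ch : Chart H r, ∀ J ∈ H.Slip r, H.pt J ∈ Set.range g.1 → ∃ m, ch.p m = J

/-- NOE.  `X` is of finite type over `ℂ`, so it is a Noetherian space (a finite union of the open
subspaces `Spec R`, `R` Noetherian, from AT1, or `IsNoetherian` of the scheme), and so is `H.Pts` with
the induced topology (`Topology.IsInducing.noetherianSpace`). -/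
def S_NOE : Prop :=
  ∀ (D : CoxData) (h : D.A → ℕ) (H : HilbScheme D h), TopologicalSpace.NoetherianSpace H.Pts

/-- ATL (from AT1, AT3).  Assembly. -/
def S_ATL : Prop :=
  ∀ (D : CoxData) (h : D.A → ℕ) (H : HilbScheme D h) (r : ℕ), IsIrreducible (H.Slip r) →
    ∃ (k : ℕ) (ch : Fin k → Chart H r), ∀ J ∈ H.Slip r, ∃ i m, (ch i).p m = J

/-- TOP (from NOE, APO).  `V = VSP r F`, `Z` a component of `V`.  `V` is a Noetherian space, so it has
finitely many irreducible components, and there is an open set `W0` of `H.Pts` with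
`∅ ≠ V ∩ W0 ⊆ Z`.  Let `J ∈ V ∩ W0`, `J = (ch i).p m`.  `(ch i).closedSet` for the complement of `W0`:
there is `c` with `m c ≠ 0` and `p m' ∈ W0` whenever `m' c ≠ 0`.  `F` vanishes on
`fib m I` (APO (1), `ideal_p`).  By the hypothesis `hd` (contrapositive) there is `m'` such that `F`
vanishes on `fib m' I`, `m' b ≠ 0`, `m' c ≠ 0`.  So `p m' ∈ V ∩ W0 ⊆ Z`.  With `W` from
`(ch i).openSet b`: `p m' ∈ Z ∩ W`, and each `J' ∈ Z ∩ W` is in `Slip`, so `J' = p m''` with
`m'' b ≠ 0`, saturated.  `¬ GenNonsaturated`: two open sets that meet the irreducible `Z` meet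
inside `Z`. -/
def S_TOP : Prop :=
  ∀ (D : CoxData) (v : D.A) (h : D.A → ℕ) (H : HilbScheme D h) (r : ℕ) (k : ℕ)
    (ch : Fin k → Chart H r), (∀ J ∈ H.Slip r, ∃ i m, (ch i).p m = J) →
    ∀ (F : D.T v) (b : ∀ i, (ch i).R),
    (∀ i (m : (ch i).R →ₐ[ℂ] ℂ), m (b i) ≠ 0 → D.Saturated (fib m (ch i).I)) →
    (∀ i (c : (ch i).R), (∀ m : (ch i).R →ₐ[ℂ] ℂ, (∀ g ∈ fib m (ch i).I, CoxData.pair F g = 0) →
      m (b i) ≠ 0 → m c = 0) →
      ∀ m : (ch i).R →ₐ[ℂ] ℂ, (∀ g ∈ fib m (ch i).I, CoxData.pair F g = 0) → m c = 0) →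
    ∀ Z : Set H.Pts, H.IsComponent (H.VSP r F) Z → H.GenSaturated Z ∧ ¬ H.GenNonsaturated Z

/-- GLU (from ATL, SAT, COR, TOP, PRM).  For each chart: the density and `(1 : R) ≠ 0` give a point
`m0` with a fibre that is the ideal of points, so SAT gives `b i`; COR gives `f i`; the product of
the `f i` (PRM: prime). -/
def S_GLU : Prop :=
  ∀ (D : CoxData) (v : D.A), D.IsAmple v → ∀ (h : D.A → ℕ) (H : HilbScheme D h) (r : ℕ),
    IsIrreducible (H.Slip r) →
    ∃ f : MvPolynomial (D.Mon v) ℂ, (∃ F ∈ CoxData.secant v r, eval F f ≠ 0) ∧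
      ∀ F ∈ CoxData.secant v r, eval F f ≠ 0 →
        ∀ Z : Set H.Pts, H.IsComponent (H.VSP r F) Z → H.GenSaturated Z ∧ ¬ H.GenNonsaturated Z

/-- HOM.  Scaling: for `c ≠ 0`, `c F` has the same annihilator, border rank, VSP and the secant
varieties are cones. -/
def S_HOM : Prop :=
  ∀ (D : CoxData) (v : D.A) (c : ℂ), c ≠ 0 → ∀ F : D.T v,
    CoxData.Ann (c • F) = CoxData.Ann F ∧ CoxData.borderRank (c • F) = CoxData.borderRank F ∧
    (∀ r, c • F ∈ CoxData.secant v r ↔ F ∈ CoxData.secant v r) ∧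
    ∀ (h : D.A → ℕ) (H : HilbScheme D h) (r : ℕ), H.VSP r (c • F) = H.VSP r F

/-- FIN (from GLU, BRK, PRM, HOM).  Let `r0, f0` be as in BRK and `f1` from GLU for `r0`; `f0 f1` does
not vanish identically on `secant v r` (PRM).  Let `f` be a homogeneous component of `f0 f1` that
does not vanish identically on `secant v r` (if all of them vanished there, so would `f0 f1`).  If
`F ∈ secant v r`, `f (F) ≠ 0`, then `(f0 f1)(c F)` is a nonzero polynomial in `c`, so
`(f0 f1)(c F) ≠ 0` for some `c ≠ 0`, and HOM.  Density: PRM (`P` is prime): if `f g` vanishes on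
`secant v r`, so does `g`. -/
def S_FIN : Prop :=
  ∀ (D : CoxData) (v : D.A), D.IsAmple v → ∀ (h : ℕ → D.A → ℕ) (H : ∀ r, HilbScheme D (h r)),
    (∀ r, 1 ≤ r → IsIrreducible ((H r).Slip r)) → ∀ r : ℕ, 1 ≤ r →
    ∃ (d : ℕ) (f : MvPolynomial (D.Mon v) ℂ), f.IsHomogeneous d ∧
      (∀ g : MvPolynomial (D.Mon v) ℂ,
        (∀ F ∈ CoxData.secant v r, eval F f ≠ 0 → eval F g = 0) →
        ∀ F ∈ CoxData.secant v r, eval F g = 0) ∧
      ∀ F ∈ CoxData.secant v r, eval F f ≠ 0 →
        ∀ Z : Set (H (CoxData.borderRank F)).Pts,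
          (H (CoxData.borderRank F)).IsComponent
            ((H (CoxData.borderRank F)).VSP (CoxData.borderRank F) F) Z →
          (H (CoxData.borderRank F)).GenSaturated Z ∧ ¬ (H (CoxData.borderRank F)).GenNonsaturated Z

end BorderVSP
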