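import Mathlib
import Pool.Agent.T2h12.SL.Stm

/-!
# Project SL: FIN (the final statement)
-/

set_option autoImplicit false

open MvPolynomial CategoryTheory AlgebraicGeometry

namespace BorderVSP

namespace FIN

variable {ι : Type}

/-- the value at a multiple -/
theorem eval_smul_hom {p : MvPolynomial ι ℂ} {d : ℕ} (hp : p.IsHomogeneous d) (c : ℂ)
    (F : ι → ℂ) : eval (c • F) p = c ^ d * eval F p := by
  rw [eval_eq, eval_eq, Finset.mul_sum]
  refine Finset.sum_congr rfl fun m hm => ?_
  have h1 : ∑ i ∈ m.support, m i = d := by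
    have := hp (mem_support_iff.1 hm)
    rw [← this, Finsupp.weight_apply, Finsupp.sum]
    simp
  have h2 : ∏ i ∈ m.support, (c • F) i ^ m i = c ^ d * ∏ i ∈ m.support, F i ^ m i := by
    rw [← h1, ← Finset.prod_pow_eq_pow_sum, ← Finset.prod_mul_distrib]
    refine Finset.prod_congr rfl fun i _ => ?_
    rw [Pi.smul_apply, smul_eq_mul, mul_pow]
  rw [h2]
  ring

theorem exists_scale (p : MvPolynomial ι ℂ) (F : ι → ℂ) (d : ℕ)
    (h : eval F (homogeneousComponent d p) ≠ 0) : ∃ c : ℂ, c ≠ 0 ∧ eval (c • F) p ≠ 0 := by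
  classical
  set N := p.totalDegree + d with hN
  set Q : Polynomial ℂ := ∑ e ∈ Finset.range (N + 1),
    Polynomial.C (eval F (homogeneousComponent e p)) * Polynomial.X ^ e with hQ
  have hQ0 : Q ≠ 0 := by
    intro h0
    apply h
    have h1 : Q.coeff d = 0 := by rw [h0, Polynomial.coeff_zero]
    rw [hQ, Polynomial.finsetSum_coeff] at h1
    rw [Finset.sum_eq_single d] at h1
    · simpa using h1
    · intro e _ hed
      rw [Polynomial.coeff_C_mul, Polynomial.coeff_X_pow, if_neg (Ne.symm hed), mul_zero]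
    · intro hd
      exact absurd (Finset.mem_range.2 (by omega)) hd
  have hX : Polynomial.X * Q ≠ 0 := mul_ne_zero Polynomial.X_ne_zero hQ0
  obtain ⟨c, hc⟩ : ∃ c : ℂ, (Polynomial.X * Q).eval c ≠ 0 := by
    by_contra hcon
    push Not at hcon
    exact hX (Polynomial.funext fun c => by rw [hcon c, Polynomial.eval_zero])
  rw [Polynomial.eval_mul, Polynomial.eval_X] at hc
  refine ⟨c, left_ne_zero_of_mul hc, ?_⟩
  have h2 : eval (c • F) p = Q.eval c := by
    have h3 : p = ∑ e ∈ Finset.range (N + 1), homogeneousComponent e p := by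
      conv_lhs => rw [← sum_homogeneousComponent p]
      refine Finset.sum_subset (fun e he => ?_) fun e _ he => ?_
      · rw [Finset.mem_range] at he ⊢
        omega
      · rw [Finset.mem_range, not_lt] at he
        exact homogeneousComponent_eq_zero _ _ (by omega)
    rw [hQ, Polynomial.eval_finsetSum]
    conv_lhs => rw [h3, map_sum]
    refine Finset.sum_congr rfl fun e _ => ?_
    rw [eval_smul_hom (homogeneousComponent_isHomogeneous e p), Polynomial.eval_mul,
      Polynomial.eval_C, Polynomial.eval_pow, Polynomial.eval_X]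
    exact mul_comm _ _
  rw [h2]
  exact right_ne_zero_of_mul hc

end FIN

open FIN in
theorem t_FIN (hG : S_GLU) (hB : S_BRK) (hP : S_PRM) (hH : S_HOM) : S_FIN := by
  classical
  intro D v hv h H hirr r hr
  obtain ⟨r0, hr0, hsec, f0, ⟨F0, hF0, hF0'⟩, hf0⟩ := hB D v hv r hr
  obtain ⟨f1, ⟨F1, hF1, hF1'⟩, hf1⟩ := hG D v hv (h r0) (H r0) r0 (hirr r0 hr0)
  rw [hsec] at hF1
  obtain ⟨P, hPp, hP1, -⟩ := hP D v r
  have h0 : f0 ∉ P := fun hm => hF0' ((hP1 f0).1 hm F0 hF0)
  have h1 : f1 ∉ P := fun hm => hF1' ((hP1 f1).1 hm F1 hF1)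
  have h01 : f0 * f1 ∉ P := fun hm => (hPp.mem_or_mem hm).elim h0 h1
  have h2 : ∃ F ∈ CoxData.secant v r, eval F (f0 * f1) ≠ 0 := by
    by_contra hcon
    push Not at hcon
    exact h01 ((hP1 _).2 hcon)
  obtain ⟨F2, hF2, hF2'⟩ := h2
  have h3 : ∃ d, eval F2 (homogeneousComponent d (f0 * f1)) ≠ 0 := by
    by_contra hcon
    push Not at hcon
    apply hF2'
    rw [← sum_homogeneousComponent (f0 * f1), map_sum]
    exact Finset.sum_eq_zero fun d _ => hcon d
  obtain ⟨d, hd⟩ := h3
  refine ⟨d, homogeneousComponent d (f0 * f1), homogeneousComponent_isHomogeneous d _, ?_, ?_⟩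
  · intro g hg
    have h4 : homogeneousComponent d (f0 * f1) * g ∈ P := by
      rw [hP1]
      intro F hF
      rw [map_mul]
      by_cases hz : eval F (homogeneousComponent d (f0 * f1)) = 0
      · rw [hz, zero_mul]
      · rw [hg F hF hz, mul_zero]
    rcases hPp.mem_or_mem h4 with h5 | h5
    · exact absurd ((hP1 _).1 h5 F2 hF2) hd
    · exact (hP1 g).1 h5
  · intro F hF hFf
    obtain ⟨c, hc, hcF⟩ := exists_scale (f0 * f1) F d hFf
    obtain ⟨-, hbr, hse, hvs⟩ := hH D v c hc F
    rw [map_mul] at hcF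
    have hcs : c • F ∈ CoxData.secant v r := (hse r).2 hF
    have hb : CoxData.borderRank F = r0 := by
      rw [← hbr]
      exact hf0 _ hcs (left_ne_zero_of_mul hcF)
    subst hb
    intro Z hZ
    refine hf1 (c • F) (hsec ▸ hcs) (right_ne_zero_of_mul hcF) Z ?_
    rw [hvs]
    exact hZ

end BorderVSP
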