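import Pool.Agent.T2h12.SL.Stm

/-! Task GEN: a form of degree `v` in the irrelevant ideal that does not vanish at given points. -/

set_option autoImplicit false

open MvPolynomial CategoryTheory AlgebraicGeometry

namespace BorderVSP

theorem t_GEN : S_GEN := by
  intro D v hv r x hx
  obtain ⟨g, hg, hne⟩ := Module.Dual.exists_forall_mem_ne_zero_of_forall_exists
    ((D.B.restrictScalars ℂ) ⊓ weightedHomogeneousSubmodule ℂ D.w v)
    (fun j : Fin r => ((MvPolynomial.aeval (x j) : D.S →ₐ[ℂ] ℂ) : D.S →ₗ[ℂ] ℂ)) (by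
      intro j
      obtain ⟨σ, hσ, hσx⟩ := hx j
      obtain ⟨e, he, hes⟩ := hv σ hσ
      refine ⟨monomial e 1, ⟨?_, ?_⟩, ?_⟩
      · have h1 : (∏ i ∈ σᶜ, X i : D.S) ∈ D.B := Ideal.subset_span ⟨σ, hσ, rfl⟩
        have h2 : (monomial e (1 : ℂ) : D.S) = (∏ i ∈ σᶜ, X i ^ (e i - 1)) * ∏ i ∈ σᶜ, X i := by
          rw [← Finset.prod_mul_distrib, monomial_eq, C_1, one_mul, Finsupp.prod, hes]
          refine Finset.prod_congr rfl fun i hi => ?_
          rw [← hes, Finsupp.mem_support_iff] at hi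
          rw [← pow_succ, Nat.sub_add_cancel (Nat.one_le_iff_ne_zero.2 hi)]
        change (monomial e (1 : ℂ) : D.S) ∈ D.B
        rw [h2]
        exact D.B.mul_mem_left _ h1
      · change (monomial e (1 : ℂ) : D.S) ∈ weightedHomogeneousSubmodule ℂ D.w v
        rw [mem_weightedHomogeneousSubmodule]
        exact isWeightedHomogeneous_monomial D.w e 1 he
      · change aeval (x j) (monomial e (1 : ℂ)) ≠ 0
        rw [aeval_monomial, map_one, one_mul, Finsupp.prod, hes]
        refine Finset.prod_ne_zero_iff.2 fun i hi => pow_ne_zero _ (hσx i ?_)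
        exact Finset.mem_compl.1 hi)
  exact ⟨g, hg.1, hg.2, fun j => hne j⟩

end BorderVSP
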