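import Pool.Agent.T2h12.SL.T_GF1

namespace BorderVSP

namespace GFR

/-- generic flatness holds for the finite `A`-modules -/
def G (R A : Type) [CommRing R] [CommRing A] [Algebra R A] : Prop :=
  ∀ (N : Type) [AddCommGroup N] [Module R N] [Module A N] [IsScalarTower R A N]
    [Module.Finite A N], ∃ f : R, f ≠ 0 ∧ FlatAt N f

/-- the filtration -/
def seq {A N : Type} [CommRing A] [AddCommGroup N] [Module A N] (x : Module.End A N)
    (N0 : Submodule A N) : ℕ → Submodule A N
  | 0 => N0
  | (i + 1) => seq x N0 i ⊔ N0.map (x ^ (i + 1))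

lemma seq_mono {A N : Type} [CommRing A] [AddCommGroup N] [Module A N] (x : Module.End A N)
    (N0 : Submodule A N) : Monotone (seq x N0) :=
  monotone_nat_of_le_succ fun i => by
    rw [seq]; exact le_sup_left

lemma seq_x {A N : Type} [CommRing A] [AddCommGroup N] [Module A N] (x : Module.End A N)
    (N0 : Submodule A N) (i : ℕ) : (seq x N0 i).map x ≤ seq x N0 (i + 1) := by
  induction i with
  | zero =>
    simp only [seq, zero_add, pow_one]
    exact le_sup_right
  | succ i ih =>
    rw [seq, Submodule.map_sup, seq]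
    refine sup_le (ih.trans le_sup_left) ?_
    rw [← Submodule.map_comp]
    have : x ∘ₗ x ^ (i + 1) = x ^ (i + 1 + 1) := by
      rw [pow_succ' x (i + 1)]; rfl
    rw [this]
    exact le_sup_right

lemma step {R A N : Type} [CommRing R] [IsDomain R] [CommRing A] [IsNoetherianRing A] [Algebra R A]
    (hG : G R A) [AddCommGroup N] [Module R N] [Module A N] [IsScalarTower R A N]
    (x : Module.End A N) (N0 : Submodule A N) (hfg : N0.FG)
    (hgen : ∀ y, ∃ i, y ∈ seq x N0 i) : ∃ f : R, f ≠ 0 ∧ FlatAt N f := by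
  haveI : Module.Finite A N0 := Module.Finite.iff_fg.2 hfg
  haveI : IsNoetherian A N0 := inferInstance
  -- the maps
  have hmem : ∀ i (m : N0), (x ^ (i + 1)) (m : N) ∈ seq x N0 (i + 1) := fun i m => by
    rw [seq]
    exact le_sup_right (a := seq x N0 i) (Submodule.mem_map_of_mem m.2)
  let ψ : ∀ i, N0 →ₗ[A] seq x N0 (i + 1) := fun i =>
    LinearMap.codRestrict (seq x N0 (i + 1)) ((x ^ (i + 1)) ∘ₗ N0.subtype) (hmem i)
  let φ : ∀ i, N0 →ₗ[A] (seq x N0 (i + 1) ⧸ (seq x N0 i).submoduleOf (seq x N0 (i + 1))) :=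
    fun i => ((seq x N0 i).submoduleOf (seq x N0 (i + 1))).mkQ ∘ₗ ψ i
  have hφs : ∀ i, Function.Surjective (φ i) := by
    intro i y
    obtain ⟨⟨z, hz⟩, rfl⟩ := Submodule.mkQ_surjective _ y
    have hz' := hz
    rw [seq, Submodule.mem_sup] at hz'
    obtain ⟨u, hu, w, hw, huw⟩ := hz'
    obtain ⟨m, hm, rfl⟩ := Submodule.mem_map.1 hw
    refine ⟨⟨m, hm⟩, ?_⟩
    simp only [φ, LinearMap.comp_apply]
    rw [← sub_eq_zero, ← map_sub, Submodule.mkQ_apply, Submodule.Quotient.mk_eq_zero]
    change _ - _ ∈ seq x N0 i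
    have : (x ^ (i + 1)) m - z = -u := by rw [← huw]; abel
    change (x ^ (i + 1)) m - z ∈ seq x N0 i
    rw [this]
    exact (seq x N0 i).neg_mem hu
  have hker : ∀ i (m : N0), m ∈ LinearMap.ker (φ i) ↔ (x ^ (i + 1)) (m : N) ∈ seq x N0 i := by
    intro i m
    rw [LinearMap.mem_ker]
    simp only [φ, LinearMap.comp_apply]
    rw [Submodule.mkQ_apply, Submodule.Quotient.mk_eq_zero]
    rfl
  have hkm : Monotone fun i => LinearMap.ker (φ i) := by
    refine monotone_nat_of_le_succ fun i m hm => ?_
    rw [hker] at hm ⊢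
    have h1 := seq_x x N0 i (Submodule.mem_map_of_mem hm)
    rw [pow_succ' x (i + 1)]
    exact h1
  obtain ⟨n, hn⟩ := monotone_stabilizes_iff_noetherian.2 (inferInstance : IsNoetherian A N0)
    ⟨_, hkm⟩
  -- the elements
  obtain ⟨f0, hf0, hF0⟩ := hG N0
  have hq : ∀ i, ∃ f : R, f ≠ 0 ∧ FlatAt (N0 ⧸ LinearMap.ker (φ i)) f := fun i => hG _
  choose f hf hF using hq
  set p : R := ∏ i ∈ Finset.range (n + 1), f i with hp
  have hp0 : p ≠ 0 := Finset.prod_ne_zero_iff.2 fun i _ => hf i
  have hpf : ∀ i, FlatAt (N0 ⧸ LinearMap.ker (φ i)) p := by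
    intro i
    have h1 : ∀ i ≤ n, FlatAt (N0 ⧸ LinearMap.ker (φ i)) p := by
      intro i hi
      obtain ⟨q, hq⟩ := Finset.dvd_prod_of_mem f (Finset.mem_range.2 (Nat.lt_succ_of_le hi))
      rw [hp, hq]
      exact GF1.mul_right q (hF i)
    rcases le_total i n with h | h
    · exact h1 i h
    · have h2 : LinearMap.ker (φ n) = LinearMap.ker (φ i) := hn i h
      rw [← h2]
      exact h1 n le_rfl
  refine ⟨f0 * p, mul_ne_zero hf0 hp0, ?_⟩
  have hstep : ∀ i, FlatAt (seq x N0 i) (f0 * p) := by
    intro i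
    induction i with
    | zero =>
      exact GF1.mul_right p hF0
    | succ i ih =>
      let K : Submodule R (seq x N0 (i + 1)) :=
        ((seq x N0 i).submoduleOf (seq x N0 (i + 1))).restrictScalars R
      refine GF1.ext K ?_ ?_
      · have e1 : K ≃ₗ[R] seq x N0 i :=
          ((Submodule.restrictScalarsEquiv R A _
            ((seq x N0 i).submoduleOf (seq x N0 (i + 1)))).restrictScalars R).trans
            ((Submodule.submoduleOfEquivOfLe
              (seq_mono x N0 (Nat.le_succ i))).restrictScalars R)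
        exact GF1.equiv e1.symm ih
      · have e2 : (N0 ⧸ LinearMap.ker (φ i)) ≃ₗ[R]
            (seq x N0 (i + 1) ⧸ (seq x N0 i).submoduleOf (seq x N0 (i + 1))) :=
          ((φ i).quotKerEquivOfSurjective (hφs i)).restrictScalars R
        have e3 : (seq x N0 (i + 1) ⧸ K) ≃ₗ[R]
            (seq x N0 (i + 1) ⧸ (seq x N0 i).submoduleOf (seq x N0 (i + 1))) :=
          Submodule.Quotient.restrictScalarsEquiv R _
        rw [mul_comm]
        exact GF1.mul_right f0 (GF1.equiv (e2.trans e3.symm) (hpf i))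
  refine GF1.union (fun i => (seq x N0 i).restrictScalars R)
    (fun i j hij y hy => seq_mono x N0 hij hy) hgen fun i => ?_
  exact GF1.equiv ((Submodule.restrictScalarsEquiv R A _ (seq x N0 i)).restrictScalars R).symm
    (hstep i)

open Polynomial in
lemma G_poly (R A : Type) [CommRing R] [IsDomain R] [CommRing A] [IsNoetherianRing A]
    [Algebra R A] (hG : G R A) : G R A[X] := by
  intro N _ _ _ _ hfin
  letI : Module A N := Module.compHom N (Polynomial.C : A →+* A[X])
  have hs : ∀ (a : A) (y : N), a • y = (Polynomial.C a) • y := fun a y => rfl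
  haveI : IsScalarTower A A[X] N := ⟨fun a p y => by
    rw [hs, smul_smul, ← Polynomial.smul_eq_C_mul]⟩
  haveI : IsScalarTower R A N := ⟨fun r a y => by
    rw [hs, hs, ← smul_assoc, Polynomial.smul_C]⟩
  obtain ⟨S, hS⟩ := hfin.fg_top
  let x : Module.End A N :=
    { toFun := fun y => (Polynomial.X : A[X]) • y
      map_add' := smul_add _
      map_smul' := fun a y => by
        simp only [hs, RingHom.id_apply, smul_smul]
        rw [mul_comm] }
  refine step hG x (Submodule.span A (S : Set N)) ⟨S, rfl⟩ ?_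
  intro y
  have hy : y ∈ Submodule.span A[X] (S : Set N) := by rw [hS]; trivial
  have hmono := seq_mono x (Submodule.span A (S : Set N))
  have hx : ∀ (i n : ℕ) (z : N), z ∈ seq x (Submodule.span A (S : Set N)) i →
      (Polynomial.X : A[X]) ^ n • z ∈ seq x (Submodule.span A (S : Set N)) (i + n) := by
    intro i n z hz
    induction n with
    | zero => simpa using hz
    | succ n ih =>
      have h1 := seq_x x _ _ (Submodule.mem_map_of_mem ih)
      rw [pow_succ', mul_smul]
      exact h1
  refine Submodule.span_induction ?_ ?_ ?_ ?_ hy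
  · intro z hz
    exact ⟨0, Submodule.subset_span hz⟩
  · exact ⟨0, Submodule.zero_mem _⟩
  · rintro z w - - ⟨i, hi⟩ ⟨j, hj⟩
    exact ⟨max i j, Submodule.add_mem _ (hmono (le_max_left _ _) hi) (hmono (le_max_right _ _) hj)⟩
  · rintro p z - ⟨i, hi⟩
    induction p using Polynomial.induction_on' with
    | add p q hp hq =>
      obtain ⟨a, ha⟩ := hp
      obtain ⟨b, hb⟩ := hq
      refine ⟨max a b, ?_⟩
      rw [add_smul]
      exact Submodule.add_mem _ (hmono (le_max_left _ _) ha) (hmono (le_max_right _ _) hb)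
    | monomial n a =>
      refine ⟨i + n, ?_⟩
      rw [← Polynomial.C_mul_X_pow_eq_monomial, mul_smul, ← hs]
      exact Submodule.smul_mem _ _ (hx i n z hi)

lemma G_surj (R A B : Type) [CommRing R] [CommRing A] [CommRing B] [Algebra R A] [Algebra R B]
    (φ : A →ₐ[R] B) (hφ : Function.Surjective φ) (hG : G R A) : G R B := by
  intro N _ _ _ _ hfin
  letI : Module A N := Module.compHom N (φ : A →+* B)
  have hs : ∀ (a : A) (y : N), a • y = (φ a) • y := fun a y => rfl
  letI : Algebra A B := φ.toRingHom.toAlgebra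
  haveI : IsScalarTower A B N := ⟨fun a p y => by
    rw [hs, smul_smul]; rfl⟩
  haveI : IsScalarTower R A N := ⟨fun r a y => by
    rw [hs, hs, map_smul, smul_assoc]⟩
  haveI : Module.Finite A N := by
    obtain ⟨S, hS⟩ := hfin.fg_top
    refine ⟨⟨S, ?_⟩⟩
    have h1 := Submodule.restrictScalars_span A B hφ (S : Set N)
    rw [hS] at h1
    rw [← h1]
    rfl
  exact hG N

end GFR

theorem t_GFR (_ : S_GF1) : S_GFR := by
  intro R P N _ _ _ _ _ _ _ _ _ _ _
  have h0 : GFR.G R R := by
    intro N _ _ _ _ _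
    rename_i i1 i2 i3 i4 i5
    have : i2 = i3 := by
      apply Module.ext'
      intro r y
      have h := @IsScalarTower.smul_assoc R R N _ i3.toSMul i2.toSMul i4 r 1 y
      have h2 : (r • (1 : R)) = r := by rw [smul_eq_mul, mul_one]
      rw [h2] at h
      have h3 : (letI := i3; (1 : R) • y) = y := by
        letI := i3
        exact one_smul R y
      rw [h3] at h
      exact h.symm
    subst this
    exact GF1.fin
  have hk : ∀ k : ℕ, GFR.G R (MvPolynomial (Fin k) R) := by
    intro k
    induction k with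
    | zero =>
      exact GFR.G_surj R R _ (MvPolynomial.isEmptyAlgEquiv R (Fin 0)).symm
        (MvPolynomial.isEmptyAlgEquiv R (Fin 0)).symm.surjective h0
    | succ k ih =>
      exact GFR.G_surj R _ _ (MvPolynomial.finSuccEquiv R k).symm
        (MvPolynomial.finSuccEquiv R k).symm.surjective (GFR.G_poly R _ ih)
  obtain ⟨k, φ, hφ⟩ := Algebra.FiniteType.iff_quotient_mvPolynomial''.1
    (inferInstance : Algebra.FiniteType R P)
  exact GFR.G_surj R _ P φ hφ (hk k) N

end BorderVSP
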