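import Mathlib
import Pool.Agent.T2h12.SL.Stm

/-!
# Project SL: GLU
-/

set_option autoImplicit false

open MvPolynomial CategoryTheory AlgebraicGeometry

namespace BorderVSP

theorem t_GLU (hA : S_ATL) (hS : S_SAT) (hC : S_COR) (hT : S_TOP) (hP : S_PRM) : S_GLU := by
  classical
  intro D v hv h H r hirr
  obtain ⟨k, ch, hch⟩ := hA D h H r hirr
  have hb : ∀ i, ∃ b : (ch i).R, b ≠ 0 ∧ ∀ m : (ch i).R →ₐ[ℂ] ℂ, m b ≠ 0 →
      D.Saturated (fib m (ch i).I) := by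
    intro i
    have := (ch i).isDomain
    have := (ch i).finiteType
    have h1 : ∃ m : (ch i).R →ₐ[ℂ] ℂ, ∃ x : Fin r → Fin D.n → ℂ, (∀ j, D.IsPt (x j)) ∧
        D.IsIdealOf x (fib m (ch i).I) := by
      by_contra hcon
      push Not at hcon
      refine one_ne_zero ((ch i).dense 1 fun m hm => ?_)
      obtain ⟨x, hx, hI⟩ := hm
      exact absurd hI (hcon m x hx)
    obtain ⟨m0, x, hx, hI⟩ := h1
    exact hS D v hv h (ch i).R (ch i).I (ch i).mem m0 r x hx hI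
  choose b hb0 hb1 using hb
  have hf : ∀ i, ∃ f : MvPolynomial (D.Mon v) ℂ, (∃ F ∈ CoxData.secant v r, eval F f ≠ 0) ∧
      ∀ F ∈ CoxData.secant v r, eval F f ≠ 0 →
        ∀ c : (ch i).R, (∀ m : (ch i).R →ₐ[ℂ] ℂ,
          (∀ g ∈ fib m (ch i).I, CoxData.pair F g = 0) → m (b i) ≠ 0 → m c = 0) →
          ∀ m : (ch i).R →ₐ[ℂ] ℂ, (∀ g ∈ fib m (ch i).I, CoxData.pair F g = 0) → m c = 0 := by
    intro i
    have := (ch i).isDomain
    have := (ch i).finiteType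
    exact hC D v h (ch i).R (ch i).I (ch i).mem r (ch i).dense (b i) (hb0 i)
  choose f hf0 hf1 using hf
  obtain ⟨P, hPp, hP1, -⟩ := hP D v r
  have hprod : ∏ i, f i ∉ P := by
    rw [hPp.prod_mem_iff]
    rintro ⟨i, -, hi⟩
    obtain ⟨F, hF, hF'⟩ := hf0 i
    exact hF' ((hP1 _).1 hi F hF)
  refine ⟨∏ i, f i, ?_, ?_⟩
  · by_contra hcon
    push Not at hcon
    exact hprod ((hP1 _).2 hcon)
  · intro F hF hFf Z hZ
    rw [map_prod] at hFf
    refine hT D v h H r k ch hch F b hb1 (fun i c hc => ?_) Z hZ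
    exact hf1 i F hF (Finset.prod_ne_zero_iff.1 hFf i (Finset.mem_univ i)) c hc

end BorderVSP
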