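import Mathlib
import Pool.Agent.T2h12.SL.Stm

/-!
# Project SL: HOM (scaling)
-/

set_option autoImplicit false

open MvPolynomial CategoryTheory AlgebraicGeometry

namespace BorderVSP

namespace HOM

variable {D : CoxData} {v : D.A}

theorem pair_smul (c : ℂ) (F : D.T v) (g : D.S) :
    CoxData.pair (c • F) g = c * CoxData.pair F g := by
  unfold CoxData.pair
  rw [Finset.mul_sum]
  refine Finset.sum_congr rfl fun e _ => ?_
  simp only [Pi.smul_apply, smul_eq_mul]
  ring

theorem ann_smul {c : ℂ} (hc : c ≠ 0) (F : D.T v) :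
    CoxData.Ann (c • F) = CoxData.Ann F := by
  unfold CoxData.Ann
  ext g
  have h : (∀ g' : D.S, CoxData.pair (c • F) (g * g') = 0) ↔
      ∀ g' : D.S, CoxData.pair F (g * g') = 0 := by
    refine forall_congr' fun g' => ?_
    rw [pair_smul, mul_eq_zero]
    exact ⟨fun h => h.resolve_left hc, fun h => Or.inr h⟩
  exact h

/-- scaling of the variables -/
theorem eval_scale (c : ℂ) (G : D.T v) (f : MvPolynomial (D.Mon v) ℂ) :
    eval G (bind₁ (fun e => C c * X e) f) = eval (c • G) f := by
  induction f using MvPolynomial.induction_on with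
  | C a => simp
  | add p q hp hq => rw [map_add, map_add, hp, hq, map_add]
  | mul_X p i hp =>
    rw [map_mul, map_mul, hp, map_mul, bind₁_X_right, map_mul, eval_C, eval_X, eval_X]
    rfl

theorem smul_secant {c : ℂ} (F : D.T v) (r : ℕ)
    (hF : F ∈ CoxData.secant v r) : c • F ∈ CoxData.secant v r := by
  intro f hf
  rw [← eval_scale]
  refine hF _ fun x hx a => ?_
  rw [eval_scale, Finset.smul_sum]
  have := hf x hx (fun j => c * a j)
  simp only [mul_smul] at this
  exact this

theorem smul_secant_iff {c : ℂ} (hc : c ≠ 0) (F : D.T v) (r : ℕ) :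
    c • F ∈ CoxData.secant v r ↔ F ∈ CoxData.secant v r := by
  refine ⟨fun h => ?_, smul_secant F r⟩
  have := smul_secant (c := c⁻¹) _ r h
  rwa [smul_smul, inv_mul_cancel₀ hc, one_smul] at this

end HOM

open HOM in
theorem t_HOM : S_HOM := by
  intro D v c hc F
  refine ⟨ann_smul hc F, ?_, smul_secant_iff hc F, ?_⟩
  · unfold CoxData.borderRank
    congr 1
    ext r
    exact smul_secant_iff hc F r
  · intro h H r
    unfold HilbScheme.VSP
    rw [ann_smul hc F]

end BorderVSP
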