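import Mathlib
import Pool.Agent.T2h12.SL.Stm

/-!
# INJ: homomorphisms that are injective modulo one maximal ideal
-/

open MvPolynomial CategoryTheory AlgebraicGeometry

namespace BorderVSP

lemma INJ_tf {R M : Type} [CommRing R] [IsDomain R] [AddCommGroup M] [Module R M]
    [Module.Projective R M] {c : R} {x : M} (hc : c ≠ 0) (h : c • x = 0) : x = 0 := by
  obtain ⟨s, hs⟩ := Module.projective_def'.1 (inferInstance : Module.Projective R M)
  have h1 : s x = 0 := by
    have h2 : c • s x = 0 := by rw [← map_smul, h, map_zero]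
    ext i
    have h3 := DFunLike.congr_fun h2 i
    rw [Finsupp.smul_apply, smul_eq_mul, Finsupp.zero_apply] at h3
    exact (mul_eq_zero.1 h3).resolve_left hc
  have h2 := LinearMap.congr_fun hs x
  rw [LinearMap.comp_apply, h1, map_zero, LinearMap.id_apply] at h2
  exact h2.symm

lemma INJ_end {R M : Type} [CommRing R] [IsDomain R] [AddCommGroup M] [Module R M]
    [Module.Finite R M] [Module.Projective R M] {𝔪 : Ideal R} (h𝔪 : 𝔪.IsMaximal)
    (θ : M →ₗ[R] M) (hθ : ∀ x, x - θ x ∈ 𝔪 • (⊤ : Submodule R M)) {x : M} (hx : θ x = 0) :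
    x = 0 := by
  by_contra hne
  obtain ⟨p, hp, _, hc, ha⟩ :=
    LinearMap.exists_monic_and_coeff_mem_pow_and_aeval_eq_zero_of_range_le_smul R
      (LinearMap.id - θ : Module.End R M) 𝔪 (by
        rintro _ ⟨y, rfl⟩
        exact hθ y)
  have h1 : Module.End.HasEigenvector (LinearMap.id - θ : Module.End R M) 1 x := by
    refine ⟨?_, hne⟩
    rw [Module.End.mem_eigenspace_iff, LinearMap.sub_apply, LinearMap.id_apply, hx, sub_zero,
      one_smul]
  have h2 := Module.End.aeval_apply_of_hasEigenvector (p := p) h1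
  rw [ha, LinearMap.zero_apply] at h2
  refine hne (INJ_tf ?_ h2.symm)
  intro h3
  apply h𝔪.ne_top
  rw [Ideal.eq_top_iff_one]
  rw [Polynomial.eval_eq_sum_range, Finset.sum_range_succ] at h3
  simp only [one_pow, mul_one] at h3
  rw [Polynomial.Monic.coeff_natDegree hp] at h3
  have h4 : (1 : R) = -∑ i ∈ Finset.range p.natDegree, p.coeff i := by linear_combination h3
  rw [h4]
  refine 𝔪.neg_mem (Submodule.sum_mem _ fun i hi => ?_)
  have h5 := Finset.mem_range.1 hi
  exact Ideal.pow_le_self (by omega) (hc i)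

theorem t_INJ : S_INJ := by
  intro R M N _ _ _ _ _ _ _ _ _ _ φ 𝔪 h𝔪 hφ
  let _ := Ideal.Quotient.field 𝔪
  obtain ⟨φb, hφb⟩ : ∃ φb : (M ⧸ (𝔪 • ⊤ : Submodule R M)) →ₗ[R] (N ⧸ (𝔪 • ⊤ : Submodule R N)),
      ∀ x, φb ((𝔪 • ⊤ : Submodule R M).mkQ x) = (𝔪 • ⊤ : Submodule R N).mkQ (φ x) := by
    refine ⟨Submodule.mapQ _ _ φ ?_, fun x => rfl⟩
    rw [← Submodule.map_le_iff_le_comap, Submodule.map_smul'']
    exact Submodule.smul_mono le_rfl le_top
  have hinj : Function.Injective φb := by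
    rw [injective_iff_map_eq_zero]
    intro y hy
    obtain ⟨x, rfl⟩ := Submodule.mkQ_surjective _ y
    rw [hφb, Submodule.mkQ_apply, Submodule.Quotient.mk_eq_zero] at hy
    rw [Submodule.mkQ_apply, Submodule.Quotient.mk_eq_zero]
    exact hφ x hy
  obtain ⟨ψ, hψ⟩ : ∃ ψ : (N ⧸ (𝔪 • ⊤ : Submodule R N)) →ₗ[R] (M ⧸ (𝔪 • ⊤ : Submodule R M)),
      ∀ y, ψ (φb y) = y := by
    have hs : Function.Surjective (algebraMap R (R ⧸ 𝔪)) := Ideal.Quotient.mk_surjective
    obtain ⟨g, hg⟩ := LinearMap.exists_leftInverse_of_injective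
      (LinearMap.extendScalarsOfSurjective hs φb) (by
        rw [LinearMap.ker_eq_bot]
        exact hinj)
    refine ⟨g.restrictScalars R, fun y => ?_⟩
    exact LinearMap.congr_fun hg y
  obtain ⟨χ, hχ⟩ := Module.projective_lifting_property
    ((𝔪 • ⊤ : Submodule R M).mkQ) (ψ ∘ₗ (𝔪 • ⊤ : Submodule R N).mkQ) (Submodule.mkQ_surjective _)
  rw [injective_iff_map_eq_zero]
  intro x hx
  refine INJ_end h𝔪 (χ ∘ₗ φ) (fun x => ?_) (x := x) (by
    rw [LinearMap.comp_apply, hx, map_zero])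
  rw [← Submodule.Quotient.mk_eq_zero, ← Submodule.mkQ_apply, map_sub, sub_eq_zero]
  have h1 := LinearMap.congr_fun hχ (φ x)
  rw [LinearMap.comp_apply, LinearMap.comp_apply, ← hφb, hψ] at h1
  rw [LinearMap.comp_apply, h1]

end BorderVSP
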