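import Mathlib
import Pool.Agent.T2h12.SL.Stm

open MvPolynomial

namespace BorderVSP

/-- The homogeneous polynomial with given coefficients. -/
noncomputable def hom {D : CoxData} (v : D.A) {R : Type} [CommRing R] (u : D.Mon v → R) :
    MvPolynomial (Fin D.n) R := ∑ e : D.Mon v, monomial e.1 (u e)

lemma coeff_hom {D : CoxData} {v : D.A} {R : Type} [CommRing R] (u : D.Mon v → R) (e : D.Mon v) :
    coeff e.1 (hom v u) = u e := by
  classical
  rw [hom, coeff_sum, Finset.sum_eq_single e]
  · rw [coeff_monomial, if_pos rfl]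
  · intro b _ hb
    rw [coeff_monomial, if_neg]
    intro h
    exact hb (Subtype.ext h)
  · intro h; exact absurd (Finset.mem_univ _) h

lemma coeff_hom_of_ne {D : CoxData} {v : D.A} {R : Type} [CommRing R] (u : D.Mon v → R)
    {d : Fin D.n →₀ ℕ} (hd : Finsupp.weight D.w d ≠ v) : coeff d (hom v u) = 0 := by
  classical
  rw [hom, coeff_sum]
  refine Finset.sum_eq_zero fun e _ => ?_
  rw [coeff_monomial, if_neg]
  intro h
  exact hd (h ▸ e.2)

lemma hom_mem {D : CoxData} {v : D.A} {R : Type} [CommRing R] (u : D.Mon v → R) :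
    hom v u ∈ weightedHomogeneousSubmodule R D.w v := by
  rw [mem_weightedHomogeneousSubmodule]
  intro d hd
  by_contra h
  exact hd (coeff_hom_of_ne u h)

lemma eq_hom {D : CoxData} {v : D.A} {R : Type} [CommRing R] {p : MvPolynomial (Fin D.n) R}
    (hp : p ∈ weightedHomogeneousSubmodule R D.w v) :
    p = hom v (fun e : D.Mon v => coeff e.1 p) := by
  ext d
  by_cases hd : Finsupp.weight D.w d = v
  · exact (coeff_hom (fun e : D.Mon v => coeff e.1 p) ⟨d, hd⟩).symm
  · rw [coeff_hom_of_ne _ hd]
    by_contra h
    exact hd (hp h)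

/-- The homogeneous polynomials in coordinates. -/
noncomputable def homEquiv {D : CoxData} (v : D.A) (R : Type) [CommRing R] :
    (D.Mon v → R) ≃ₗ[R] weightedHomogeneousSubmodule R D.w v where
  toFun u := ⟨hom v u, hom_mem u⟩
  invFun p := fun e => coeff e.1 p.1
  map_add' u u' := by
    apply Subtype.ext
    simp [hom, Finset.sum_add_distrib]
  map_smul' c u := by
    apply Subtype.ext
    simp [hom, Finset.smul_sum, smul_monomial]
  left_inv u := funext fun e => coeff_hom u e
  right_inv p := Subtype.ext (eq_hom p.2).symm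

theorem t_LPR : S_LPR := by
  intro D v h R _ I hI
  have h1 : Module.Projective R (GradedPiece D.w I v) := (hI.2 v).2.1
  have hmap : (Lv v I).map (homEquiv v R : (D.Mon v → R) →ₗ[R] _) =
      (I.restrictScalars R).comap (weightedHomogeneousSubmodule R D.w v).subtype := by
    ext p
    constructor
    · rintro ⟨u, hu, rfl⟩
      exact hu
    · intro hp
      refine ⟨(homEquiv v R).symm p, ?_, LinearEquiv.apply_symm_apply _ _⟩
      show hom v ((homEquiv v R).symm p) ∈ I
      have h2 : hom v ((homEquiv v R).symm p) = p.1 := (eq_hom p.2).symm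
      rw [h2]
      exact hp
  have e : ((D.Mon v → R) ⧸ Lv v I) ≃ₗ[R] GradedPiece D.w I v :=
    Submodule.Quotient.equiv _ _ (homEquiv v R) hmap
  exact Module.Projective.of_equiv e.symm

end BorderVSP
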