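import Mathlib
import Pool.Agent.T2h12.SL.Stm

/-!
# Fibres of families of ideals, weighted homogeneous components: basic lemmas
-/

open MvPolynomial CategoryTheory AlgebraicGeometry

namespace BorderVSP

section

variable {R : Type} [CommRing R] [Algebra ℂ R] {n : ℕ}

lemma alg_surj (m : R →ₐ[ℂ] ℂ) : Function.Surjective (m : R →+* ℂ) := fun z =>
  ⟨algebraMap ℂ R z, m.commutes z⟩

lemma map_surj (m : R →ₐ[ℂ] ℂ) :
    Function.Surjective (MvPolynomial.map (σ := Fin n) (m : R →+* ℂ)) :=
  MvPolynomial.map_surjective _ (alg_surj m)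

lemma mem_fib {m : R →ₐ[ℂ] ℂ} {I : Ideal (MvPolynomial (Fin n) R)}
    {y : MvPolynomial (Fin n) ℂ} :
    y ∈ fib m I ↔ ∃ p ∈ I, MvPolynomial.map (m : R →+* ℂ) p = y :=
  Ideal.mem_map_iff_of_surjective _ (map_surj m)

lemma map_alg (m : R →ₐ[ℂ] ℂ) (q : MvPolynomial (Fin n) ℂ) :
    MvPolynomial.map (m : R →+* ℂ) (MvPolynomial.map (algebraMap ℂ R) q) = q := by
  rw [MvPolynomial.map_map]
  have h : (m : R →+* ℂ).comp (algebraMap ℂ R) = RingHom.id ℂ := by
    ext z
    exact m.commutes z
  rw [h, MvPolynomial.map_id]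

lemma ker_isMaximal (m : R →ₐ[ℂ] ℂ) : (RingHom.ker (m : R →+* ℂ)).IsMaximal :=
  RingHom.ker_isMaximal_of_surjective _ (alg_surj m)

end

section

variable {A : Type} [AddCommGroup A] {n : ℕ} {R : Type} [CommRing R] {w : Fin n → A}

lemma comp_mul {G : MvPolynomial (Fin n) R} {v : A} (hG : IsWeightedHomogeneous w G v) (a : A)
    (p : MvPolynomial (Fin n) R) : weightedHomogeneousComponent w (v + a) (G * p) =
      G * weightedHomogeneousComponent w a p := by
  classical
  induction p using MvPolynomial.induction_on' with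
  | monomial u c =>
    have h1 : IsWeightedHomogeneous w (monomial u c) (Finsupp.weight w u) :=
      isWeightedHomogeneous_monomial w u c rfl
    have h2 : IsWeightedHomogeneous w (G * monomial u c) (v + Finsupp.weight w u) := hG.mul h1
    by_cases h : a = Finsupp.weight w u
    · rw [h, h2.weightedHomogeneousComponent_same, h1.weightedHomogeneousComponent_same]
    · rw [h2.weightedHomogeneousComponent_ne _ (fun h3 => h (add_left_cancel h3)),
        h1.weightedHomogeneousComponent_ne _ h, mul_zero]
  | add p q hp hq => rw [mul_add, map_add, hp, hq, map_add, mul_add]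

lemma mem_of_comp {I : Ideal (MvPolynomial (Fin n) R)} {p : MvPolynomial (Fin n) R}
    (h : ∀ a, weightedHomogeneousComponent w a p ∈ I) : p ∈ I := by
  rw [← sum_weightedHomogeneousComponent w p,
    finsum_eq_sum _ (weightedHomogeneousComponent_finsupp p)]
  exact Ideal.sum_mem _ fun a _ => h a

lemma comp_map {R' : Type} [CommRing R'] (f : R →+* R') (a : A) (p : MvPolynomial (Fin n) R) :
    weightedHomogeneousComponent w a (MvPolynomial.map f p) =
      MvPolynomial.map f (weightedHomogeneousComponent w a p) := by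
  classical
  ext d
  rw [coeff_weightedHomogeneousComponent, coeff_map, coeff_map,
    coeff_weightedHomogeneousComponent]
  split_ifs
  · rfl
  · rw [map_zero]

end

end BorderVSP
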