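import Mathlib
import Pool.Agent.T2h12.SL.Stm
import Pool.Agent.T2h12.SL.H58

/-!
# MUL: multiplication by a form which does not vanish at the points
-/

set_option autoImplicit false

open MvPolynomial CategoryTheory AlgebraicGeometry

namespace BorderVSP

section

variable {A : Type} [AddCommGroup A] {n : ℕ} {w : Fin n → A} {R : Type} [CommRing R]
  {I : Ideal (MvPolynomial (Fin n) R)}

/-- the class of a homogeneous polynomial -/
noncomputable def gp (w : Fin n → A) (I : Ideal (MvPolynomial (Fin n) R)) (a : A) :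
    weightedHomogeneousSubmodule R w a →ₗ[R] GradedPiece w I a := Submodule.mkQ _

lemma gp_surj (a : A) : Function.Surjective (gp w I a) := Submodule.mkQ_surjective _

lemma gp_eq_zero {a : A} {z : weightedHomogeneousSubmodule R w a} :
    gp w I a z = 0 ↔ (z : MvPolynomial (Fin n) R) ∈ I := by
  rw [gp, Submodule.mkQ_apply, Submodule.Quotient.mk_eq_zero]
  rfl

variable [Algebra ℂ R] {m : R →ₐ[ℂ] ℂ}

lemma gp_in {a : A} (z : weightedHomogeneousSubmodule R w a)
    (hz : MvPolynomial.map (m : R →+* ℂ) (z : MvPolynomial (Fin n) R) = 0) :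
    gp w I a z ∈ RingHom.ker (m : R →+* ℂ) • (⊤ : Submodule R (GradedPiece w I a)) := by
  have h1 : ∀ e, coeff e (z : MvPolynomial (Fin n) R) ∈ RingHom.ker (m : R →+* ℂ) := by
    intro e
    rw [RingHom.mem_ker]
    have h2 := congrArg (coeff e) hz
    rw [coeff_map, coeff_zero] at h2
    exact h2
  classical
  have h2 : z = ∑ e ∈ (z : MvPolynomial (Fin n) R).support.attach,
      coeff e.1 (z : MvPolynomial (Fin n) R) • (⟨monomial e.1 1, by
        rw [mem_weightedHomogeneousSubmodule]
        exact isWeightedHomogeneous_monomial w _ _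
          ((mem_weightedHomogeneousSubmodule _ _ _ _).1 z.2 (mem_support_iff.1 e.2))⟩ :
        weightedHomogeneousSubmodule R w a) := by
    apply Subtype.ext
    rw [AddSubmonoidClass.coe_finsetSum]
    conv_lhs => rw [(z : MvPolynomial (Fin n) R).as_sum]
    rw [← Finset.sum_attach]
    refine Finset.sum_congr rfl fun e _ => ?_
    rw [Submodule.coe_smul, smul_monomial, smul_eq_mul, mul_one]
  rw [h2, map_sum]
  refine Submodule.sum_mem _ fun e _ => ?_
  rw [map_smul]
  exact Submodule.smul_mem_smul (h1 _) trivial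

lemma gp_out {a : A} {y : GradedPiece w I a} (hy : y ∈ RingHom.ker (m : R →+* ℂ) •
      (⊤ : Submodule R (GradedPiece w I a))) :
    ∀ z, gp w I a z = y → MvPolynomial.map (m : R →+* ℂ) (z : MvPolynomial (Fin n) R) ∈
      fib m I := by
  refine Submodule.smul_induction_on hy ?_ ?_
  · rintro r hr y - z hz
    obtain ⟨y', rfl⟩ := gp_surj a y
    have h1 : ((z - r • y' : weightedHomogeneousSubmodule R w a) : MvPolynomial (Fin n) R) ∈ I := by
      rw [← gp_eq_zero (w := w), map_sub, map_smul, hz, sub_self]
    have h2 : MvPolynomial.map (m : R →+* ℂ) (z : MvPolynomial (Fin n) R) =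
        MvPolynomial.map (m : R →+* ℂ)
          ((z - r • y' : weightedHomogeneousSubmodule R w a) : MvPolynomial (Fin n) R) := by
      rw [Submodule.coe_sub, Submodule.coe_smul, map_sub, MvPolynomial.smul_eq_C_mul, map_mul,
        map_C, RingHom.mem_ker.1 hr, map_zero, zero_mul, sub_zero]
    rw [h2]
    exact Ideal.mem_map_of_mem _ h1
  · intro y y' hy hy' z hz
    obtain ⟨u, rfl⟩ := gp_surj a y
    have h1 := hy u rfl
    have h2 := hy' (z - u) (by rw [map_sub, hz, add_sub_cancel_left])
    have h3 := Ideal.add_mem _ h1 h2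
    rwa [← map_add, ← Submodule.coe_add, add_sub_cancel] at h3

end

theorem t_MUL (hJ : S_INJ) : S_MUL := by
  intro D v h R _ _ _ I hI m0 r x hx g hg hgx p hp
  obtain ⟨hI1, hI2⟩ := hI
  rw [mem_weightedHomogeneousSubmodule] at hg
  obtain ⟨G, hGd⟩ : ∃ G : MvPolynomial (Fin D.n) R, G = MvPolynomial.map (algebraMap ℂ R) g :=
    ⟨_, rfl⟩
  rw [← hGd] at hp
  have hG : IsWeightedHomogeneous D.w G v := by
    intro d hd
    rw [hGd, coeff_map] at hd
    refine hg ?_
    intro h0
    rw [h0, map_zero] at hd
    exact hd rfl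
  have hGm : MvPolynomial.map (m0 : R →+* ℂ) G = g := by rw [hGd, map_alg]
  refine mem_of_comp (w := D.w) fun a => ?_
  have h1 : G * weightedHomogeneousComponent D.w a p ∈ I := by
    rw [← comp_mul hG]
    exact hI1 _ hp _
  -- multiplication by `G`
  let μ : weightedHomogeneousSubmodule R D.w a →ₗ[R]
      weightedHomogeneousSubmodule R D.w (v + a) :=
    { toFun := fun z => ⟨G * z.1, by
        rw [mem_weightedHomogeneousSubmodule]
        exact hG.mul ((mem_weightedHomogeneousSubmodule _ _ _ _).1 z.2)⟩
      map_add' := fun z z' => Subtype.ext (mul_add _ _ _)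
      map_smul' := fun c z => Subtype.ext (mul_smul_comm _ _ _) }
  have hμ : ∀ z, (μ z : MvPolynomial (Fin D.n) R) = G * z := fun z => rfl
  let φ : GradedPiece D.w I a →ₗ[R] GradedPiece D.w I (v + a) :=
    Submodule.mapQ _ _ μ (by
      intro z hz
      exact I.mul_mem_left G hz)
  have hφ : ∀ z, φ (gp D.w I a z) = gp D.w I (v + a) (μ z) := fun z => rfl
  have := (hI2 a).1
  have := (hI2 a).2.1
  have := (hI2 (v + a)).1
  have := (hI2 (v + a)).2.1
  have hinj := hJ R (GradedPiece D.w I a) (GradedPiece D.w I (v + a)) φ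
    (RingHom.ker (m0 : R →+* ℂ)) (ker_isMaximal m0) (by
      intro y hy
      obtain ⟨z, rfl⟩ := gp_surj a y
      rw [hφ] at hy
      have h2 := gp_out hy _ rfl
      rw [hμ, map_mul, hGm] at h2
      have hzh : IsWeightedHomogeneous D.w (z : MvPolynomial (Fin D.n) R) a :=
        (mem_weightedHomogeneousSubmodule _ _ _ _).1 z.2
      have hzm : IsWeightedHomogeneous D.w
          (MvPolynomial.map (m0 : R →+* ℂ) (z : MvPolynomial (Fin D.n) R)) a := by
        intro d hd
        rw [coeff_map] at hd
        refine hzh ?_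
        intro h0
        rw [h0, map_zero] at hd
        exact hd rfl
      have h3 : MvPolynomial.map (m0 : R →+* ℂ) (z : MvPolynomial (Fin D.n) R) ∈ fib m0 I := by
        rw [hx]
        intro b j
        by_cases hb : b = a
        · subst hb
          rw [hzm.weightedHomogeneousComponent_same]
          have h4 := (hx _).1 h2 (v + b) j
          rw [(hg.mul hzm).weightedHomogeneousComponent_same, map_mul] at h4
          exact (mul_eq_zero.1 h4).resolve_left (hgx j)
        · rw [hzm.weightedHomogeneousComponent_ne _ hb, map_zero]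
      obtain ⟨q, hq, hqz⟩ := mem_fib.1 h3
      obtain ⟨u, hu⟩ : ∃ u : weightedHomogeneousSubmodule R D.w a,
          (u : MvPolynomial (Fin D.n) R) = weightedHomogeneousComponent D.w a q :=
        ⟨⟨_, weightedHomogeneousComponent_mem D.w q a⟩, rfl⟩
      have h4 : gp D.w I a u = 0 := by
        rw [gp_eq_zero, hu]
        exact hI1 _ hq _
      have h5 : gp D.w I a z = gp D.w I a (z - u) := by rw [map_sub, h4, sub_zero]
      rw [h5]
      refine gp_in _ ?_
      rw [Submodule.coe_sub, map_sub, hu, ← comp_map, hqz,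
        hzm.weightedHomogeneousComponent_same, sub_self])
  obtain ⟨u, hu⟩ : ∃ u : weightedHomogeneousSubmodule R D.w a,
      (u : MvPolynomial (Fin D.n) R) = weightedHomogeneousComponent D.w a p :=
    ⟨⟨_, weightedHomogeneousComponent_mem D.w p a⟩, rfl⟩
  have h2 : φ (gp D.w I a u) = 0 := by
    rw [hφ, gp_eq_zero, hμ, hu]
    exact h1
  have h3 := (injective_iff_map_eq_zero φ).1 hinj _ h2
  rw [gp_eq_zero, hu] at h3
  exact h3

end BorderVSP
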