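import Mathlib
import Pool.Agent.T2h12.SL.Stm

/-!
# Project SL: NOE
-/

set_option autoImplicit false

open MvPolynomial CategoryTheory AlgebraicGeometry

namespace BorderVSP

theorem t_NOE : S_NOE := by
  intro D h H
  have h1 : LocallyOfFiniteType H.s := H.locallyOfFiniteType
  have h2 : CompactSpace H.X := H.compact
  have h3 : IsLocallyNoetherian H.X := LocallyOfFiniteType.isLocallyNoetherian H.s
  have h4 : IsNoetherian H.X := {}
  have h5 : TopologicalSpace.NoetherianSpace H.X := inferInstance
  exact Topology.IsInducing.noetherianSpace (i := H.pt) ⟨rfl⟩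

end BorderVSP
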