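import Mathlib
import Pool.Agent.T2h12.SL.Stm
import Pool.Agent.T2h12.SL.T_LPR

open MvPolynomial

namespace BorderVSP

theorem t_PRI (hSYM : S_SYM) (hLPR : S_LPR) : S_PRI := by
  classical
  intro D v h R _ _ _ I hI r hE f hf
  obtain ⟨q, ρ, hq, hker, hρ, hρk⟩ := hSYM R (D.Mon v) (Lv v I) (hLPR D v h R I hI)
  rw [← hρk]
  show ρ (MvPolynomial.map (algebraMap ℂ R) f) = 0
  ext d
  rw [coeff_zero]
  apply hE
  rintro m ⟨x, hx, hJ⟩
  suffices hm : MvPolynomial.map (m : R →+* ℂ) (ρ (MvPolynomial.map (algebraMap ℂ R) f)) = 0 by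
    have := congrArg (coeff d) hm
    rw [coeff_map, coeff_zero] at this
    exact this
  apply MvPolynomial.funext
  intro τ
  rw [map_zero]
  let F : D.T v := fun e => ∑ e', m (q (Pi.single e 1) e') * τ e'
  have h1 : (((eval τ).comp (MvPolynomial.map (m : R →+* ℂ))).comp (ρ : MvPolynomial (D.Mon v) R
      →+* MvPolynomial (D.Mon v) R)).comp (MvPolynomial.map (algebraMap ℂ R)) = eval F := by
    apply MvPolynomial.ringHom_ext
    · intro z
      simp only [RingHom.comp_apply, map_C, eval_C]
      have : (ρ : MvPolynomial (D.Mon v) R →+* MvPolynomial (D.Mon v) R)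
          (C (algebraMap ℂ R z)) = C (algebraMap ℂ R z) := ρ.commutes _
      rw [this, map_C, eval_C]
      exact m.commutes z
    · intro e
      simp only [RingHom.comp_apply, map_X, eval_X]
      have : (ρ : MvPolynomial (D.Mon v) R →+* MvPolynomial (D.Mon v) R) (X e) =
          lin (q (Pi.single e 1)) := hρ e
      rw [this, lin, map_sum, map_sum]
      refine Finset.sum_congr rfl fun e' _ => ?_
      rw [map_mul, map_mul, map_C, map_X, eval_C, eval_X]
      rfl
  have h2 : eval τ (MvPolynomial.map (m : R →+* ℂ) (ρ (MvPolynomial.map (algebraMap ℂ R) f))) =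
      eval F f := congrArg (fun k : MvPolynomial (D.Mon v) ℂ →+* ℂ => k f) h1
  rw [h2]
  apply hf
  -- `F` is in the span of the points
  have key : ∀ u : D.Mon v → ℂ, (∀ j, ∑ e, u e * CoxData.ev v (x j) e = 0) →
      ∑ e, u e * F e = 0 := by
    intro u hu
    have hmem : hom v u ∈ fib m I := by
      rw [hJ]
      intro a j
      by_cases ha : a = v
      · subst ha
        rw [weightedHomogeneousComponent_of_mem (hom_mem u), if_pos rfl]
        rw [← hu j, hom, map_sum]
        refine Finset.sum_congr rfl fun e _ => ?_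
        rw [eval_monomial, CoxData.ev]
        congr 1
        rw [Finsupp.prod_fintype _ _ (by simp)]
      · rw [weightedHomogeneousComponent_of_mem (hom_mem u), if_neg ha, map_zero]
    obtain ⟨p0, hp0, hp0u⟩ := (Ideal.mem_map_iff_of_surjective _ (by
      exact MvPolynomial.map_surjective _ (fun z => ⟨algebraMap ℂ R z, m.commutes z⟩))).1 hmem
    set p1 := weightedHomogeneousComponent D.w v p0 with hp1
    have hp1I : p1 ∈ I := hI.1 p0 hp0 v
    have hp1h : p1 ∈ weightedHomogeneousSubmodule R D.w v :=
      weightedHomogeneousComponent_mem _ _ _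
    set u' : D.Mon v → R := fun e => coeff e.1 p1 with hu'
    have hu'L : u' ∈ Lv v I := by
      show hom v u' ∈ I
      rw [← eq_hom hp1h]
      exact hp1I
    have hmu' : ∀ e, m (u' e) = u e := by
      intro e
      have h3 : coeff e.1 p1 = coeff e.1 p0 := by
        rw [hp1, coeff_weightedHomogeneousComponent, if_pos e.2]
      have h4 : (m : R →+* ℂ) (coeff e.1 p0) = coeff e.1 (hom v u) := by
        rw [← hp0u, coeff_map]
      rw [coeff_hom] at h4
      show m (coeff e.1 p1) = u e
      rw [h3]
      exact h4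
    have hqu' : q u' = 0 := by
      rw [← LinearMap.mem_ker, hker]
      exact hu'L
    have hdec : u' = ∑ e, u' e • Pi.single e (1 : R) := by
      ext i
      simp [Finset.sum_apply, Pi.single_apply]
    have h5 : ∀ e', ∑ e, u' e * q (Pi.single e 1) e' = 0 := by
      intro e'
      have h6 := congrFun hqu' e'
      rw [hdec, map_sum] at h6
      simpa [Finset.sum_apply, map_smul] using h6
    calc ∑ e, u e * F e = ∑ e, ∑ e', (m (u' e) * m (q (Pi.single e 1) e')) * τ e' := by
          refine Finset.sum_congr rfl fun e _ => ?_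
          rw [hmu', Finset.mul_sum]
          exact Finset.sum_congr rfl fun e' _ => by ring
      _ = ∑ e', (m (∑ e, u' e * q (Pi.single e 1) e')) * τ e' := by
          rw [Finset.sum_comm]
          refine Finset.sum_congr rfl fun e' _ => ?_
          rw [map_sum, Finset.sum_mul]
          exact Finset.sum_congr rfl fun e _ => by rw [map_mul]
      _ = 0 := by
          refine Finset.sum_eq_zero fun e' _ => ?_
          rw [h5, map_zero, zero_mul]
  let φ : (D.Mon v → ℂ) → ((D.Mon v → ℂ) →ₗ[ℂ] ℂ) := fun G =>
    { toFun := fun u => ∑ e, u e * G e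
      map_add' := fun u u' => by simp [add_mul, Finset.sum_add_distrib]
      map_smul' := fun c u => by simp [Finset.mul_sum, mul_assoc] }
  have h7 : φ F ∈ Submodule.span ℂ (Set.range fun j => φ (CoxData.ev v (x j))) := by
    apply mem_span_of_iInf_ker_le_ker
    intro u hu
    rw [Submodule.mem_iInf] at hu
    exact key u fun j => hu j
  obtain ⟨c, hc⟩ := (Submodule.mem_span_range_iff_exists_fun ℂ).1 h7
  have hF : F = ∑ j, c j • CoxData.ev v (x j) := by
    funext e
    have h8 := congrArg (fun k : (D.Mon v → ℂ) →ₗ[ℂ] ℂ => k (Pi.single e 1)) hc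
    simp only [LinearMap.sum_apply, LinearMap.smul_apply, smul_eq_mul] at h8
    have h9 : ∀ G : D.Mon v → ℂ, φ G (Pi.single e 1) = G e := by
      intro G
      show ∑ e', (Pi.single e (1 : ℂ) : D.Mon v → ℂ) e' * G e' = G e
      rw [Finset.sum_eq_single e]
      · simp
      · intro b _ hb; simp [hb]
      · intro h; exact absurd (Finset.mem_univ _) h
    rw [h9] at h8
    rw [← h8]
    simp only [h9, Finset.sum_apply, Pi.smul_apply, smul_eq_mul]
  intro f' hf'
  rw [hF]
  exact hf' x hx c

end BorderVSP
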