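import Pool.Agent.T2h12.SL.Stm

/-! Project SL, tasks PRM and BRK. -/

open MvPolynomial

namespace BorderVSP

namespace PRM

variable (D : CoxData) (v : D.A) (r : ℕ)

/-- the parametrisation of the secant variety -/
noncomputable def phi : MvPolynomial (D.Mon v) ℂ →ₐ[ℂ]
    MvPolynomial (Fin r × Option (Fin D.n)) ℂ :=
  aeval fun e => ∑ j : Fin r, X (j, none) * ∏ i : Fin D.n, X (j, some i) ^ (e.1 i)

/-- the point of the parameter space -/
def par (c : Fin r → ℂ) (x : Fin r → Fin D.n → ℂ) : Fin r × Option (Fin D.n) → ℂ :=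
  fun p => p.2.elim (c p.1) (x p.1)

theorem eval_phi (c : Fin r → ℂ) (x : Fin r → Fin D.n → ℂ) (f : MvPolynomial (D.Mon v) ℂ) :
    eval (par D r c x) (phi D v r f) = eval (∑ j, c j • CoxData.ev v (x j)) f := by
  have h : (eval (par D r c x)).comp (phi D v r).toRingHom =
      eval (∑ j, c j • CoxData.ev v (x j)) := by
    apply MvPolynomial.ringHom_ext
    · intro a
      simp [phi]
    · intro e
      simp [phi, par, CoxData.ev, Finset.sum_apply]
  exact congrArg (fun g : MvPolynomial (D.Mon v) ℂ →+* ℂ => g f) h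

theorem isPt_of_ne {x : Fin D.n → ℂ} (h : ∀ i, x i ≠ 0) : D.IsPt x := by
  obtain ⟨σ, hσ⟩ := D.nonempty
  exact ⟨σ, hσ, fun i _ => h i⟩

theorem mem_ker (f : MvPolynomial (D.Mon v) ℂ) :
    f ∈ RingHom.ker (phi D v r).toRingHom ↔
      ∀ x : Fin r → Fin D.n → ℂ, (∀ j, D.IsPt (x j)) → ∀ c : Fin r → ℂ,
        eval (∑ j, c j • CoxData.ev v (x j)) f = 0 := by
  rw [RingHom.mem_ker]
  constructor
  · intro h x _ c
    rw [← eval_phi]
    have h' : phi D v r f = 0 := h
    rw [h', map_zero]
  · intro h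
    change phi D v r f = 0
    have h1 : phi D v r f * ∏ j : Fin r, ∏ i : Fin D.n,
        (X (j, some i) : MvPolynomial (Fin r × Option (Fin D.n)) ℂ) = 0 := by
      apply MvPolynomial.funext
      intro y
      rw [map_mul, map_zero, map_prod]
      by_cases hy : ∃ j : Fin r, ∃ i : Fin D.n, y (j, some i) = 0
      · obtain ⟨j, i, hji⟩ := hy
        rw [Finset.prod_eq_zero (Finset.mem_univ j), mul_zero]
        rw [map_prod]
        exact Finset.prod_eq_zero (Finset.mem_univ i) (by rw [eval_X, hji])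
      · push Not at hy
        have h2 : y = par D r (fun j => y (j, none)) (fun j i => y (j, some i)) := by
          funext ⟨j, o⟩
          cases o <;> rfl
        have h3 : eval y (phi D v r f) = 0 := by
          rw [h2, eval_phi]
          exact h _ (fun j => isPt_of_ne D (hy j)) _
        rw [h3, zero_mul]
    rcases mul_eq_zero.1 h1 with h2 | h2
    · exact h2
    · exfalso
      rw [Finset.prod_eq_zero_iff] at h2
      obtain ⟨j, _, h3⟩ := h2
      rw [Finset.prod_eq_zero_iff] at h3
      obtain ⟨i, _, h4⟩ := h3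
      exact MvPolynomial.X_ne_zero _ h4

end PRM

theorem t_PRM : S_PRM := by
  intro D v r
  have hmem : ∀ f, f ∈ RingHom.ker (PRM.phi D v r).toRingHom ↔
      ∀ F ∈ CoxData.secant v r, eval F f = 0 := by
    intro f
    rw [PRM.mem_ker]
    constructor
    · intro h F hF
      exact hF f h
    · intro h x hx c
      exact h _ fun g hg => hg x hx c
  refine ⟨RingHom.ker (PRM.phi D v r).toRingHom, RingHom.ker_isPrime _,
    hmem, fun F => ⟨fun hF f hf => (hmem f).1 hf F hF, fun h f hf => h f ?_⟩⟩
  rw [PRM.mem_ker]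
  exact hf

namespace BRK

theorem secant_mono (D : CoxData) (v : D.A) {r' r : ℕ} (h : r' ≤ r) :
    CoxData.secant v r' ⊆ CoxData.secant v r := by
  intro F hF f hf
  apply hF f
  intro x hx c
  obtain ⟨k, rfl⟩ := Nat.exists_eq_add_of_le h
  have h1 := hf (Fin.append x fun _ _ => 1) (by
    intro j
    refine Fin.addCases (fun i => ?_) (fun i => ?_) j
    · rw [Fin.append_left]
      exact hx i
    · rw [Fin.append_right]
      exact PRM.isPt_of_ne D fun _ => one_ne_zero) (Fin.append c fun _ => 0)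
  rw [Fin.sum_univ_add] at h1
  simpa using h1

theorem mem_secant_one (D : CoxData) (v : D.A) {r : ℕ} (hr : 1 ≤ r) :
    CoxData.ev v (fun _ => 1) ∈ CoxData.secant v r := by
  apply secant_mono D v hr
  intro f hf
  have h1 := hf (fun _ _ => 1) (fun _ => PRM.isPt_of_ne D fun _ => one_ne_zero) (fun _ => 1)
  simpa using h1

theorem secant_zero (D : CoxData) (v : D.A) {F : D.T v} (hF : F ∈ CoxData.secant v 0) :
    F = 0 := by
  funext e
  have h1 := hF (X e) (fun x _ c => by simp)
  simpa using h1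

end BRK

theorem t_BRK (hPRM : S_PRM) : S_BRK := by
  classical
  intro D v hv r hr
  have hex : ∃ r0 : ℕ, CoxData.secant v r0 = CoxData.secant v r := ⟨r, rfl⟩
  set r0 := Nat.find hex with hr0
  have h0 : CoxData.secant v r0 = CoxData.secant v r := Nat.find_spec hex
  have hle : r0 ≤ r := Nat.find_min' hex rfl
  have hmin : ∀ r' < r0, CoxData.secant v r' ≠ CoxData.secant v r := fun r' h =>
    Nat.find_min hex h
  refine ⟨r0, ?_, h0, ?_⟩
  · by_contra hcon
    have h1 : r0 = 0 := by omega
    have h2 := BRK.mem_secant_one D v hr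
    rw [← h0, h1] at h2
    have h3 := BRK.secant_zero D v h2
    obtain ⟨σ, hσ⟩ := D.nonempty
    obtain ⟨e, he, _⟩ := hv σ hσ
    have h4 : CoxData.ev v (fun _ => (1 : ℂ)) ⟨e, he⟩ = 0 := congrFun h3 ⟨e, he⟩
    simp [CoxData.ev] at h4
  · have hf : ∀ r' : ℕ, ∃ f : MvPolynomial (D.Mon v) ℂ, r' < r0 →
        (∀ F ∈ CoxData.secant v r', eval F f = 0) ∧ ∃ F ∈ CoxData.secant v r, eval F f ≠ 0 := by
      intro r'
      by_cases hr' : r' < r0
      · have h1 : ∃ F ∈ CoxData.secant v r, F ∉ CoxData.secant v r' := by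
          by_contra hcon
          push Not at hcon
          exact hmin r' hr' (Set.Subset.antisymm (BRK.secant_mono D v (by omega)) hcon)
        obtain ⟨F, hF, hF'⟩ := h1
        unfold CoxData.secant at hF'
        rw [Set.mem_ofPred_eq] at hF'
        push Not at hF'
        obtain ⟨f, hf1, hf2⟩ := hF'
        exact ⟨f, fun _ => ⟨fun G hG => hG f hf1, F, hF, hf2⟩⟩
      · exact ⟨0, fun h => absurd h hr'⟩
    choose f hf using hf
    obtain ⟨P, hP, hP1, -⟩ := hPRM D v r
    have hnP : ∏ i ∈ Finset.range r0, f i ∉ P := by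
      rw [hP.prod_mem_iff]
      rintro ⟨i, hi, hfi⟩
      obtain ⟨-, F, hF, hFf⟩ := hf i (Finset.mem_range.1 hi)
      exact hFf ((hP1 _).1 hfi F hF)
    refine ⟨∏ i ∈ Finset.range r0, f i, ?_, ?_⟩
    · by_contra hcon
      push Not at hcon
      exact hnP ((hP1 _).2 hcon)
    · intro F hF hFf
      rw [map_prod, Finset.prod_ne_zero_iff] at hFf
      have h1 : F ∈ CoxData.secant v r0 := by rw [h0]; exact hF
      apply le_antisymm
      · exact Nat.sInf_le h1
      · apply le_csInf ⟨r0, h1⟩
        intro r' hr'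
        by_contra hcon
        push Not at hcon
        exact hFf r' (Finset.mem_range.2 hcon) ((hf r' hcon).1 F hr')

end BorderVSP
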