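import Mathlib
import Pool.Agent.T2h12.SL.Stm
import Pool.Agent.T2h12.SL.H58

/-!
# SA1: the general fibre
-/

open MvPolynomial CategoryTheory AlgebraicGeometry

namespace BorderVSP

section

variable {R : Type} [CommRing R] [Algebra ℂ R] {n : ℕ} {m : R →ₐ[ℂ] ℂ}
  {I : Ideal (MvPolynomial (Fin n) R)}

lemma SA1_in {z : MvPolynomial (Fin n) R} (hz : MvPolynomial.map (m : R →+* ℂ) z = 0) :
    Ideal.Quotient.mk I z ∈ RingHom.ker (m : R →+* ℂ) •
      (⊤ : Submodule R (MvPolynomial (Fin n) R ⧸ I)) := by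
  rw [z.as_sum, map_sum]
  refine Submodule.sum_mem _ fun e _ => ?_
  have h1 : coeff e z ∈ RingHom.ker (m : R →+* ℂ) := by
    rw [RingHom.mem_ker]
    have h2 := congrArg (coeff e) hz
    rw [coeff_map, coeff_zero] at h2
    exact h2
  have h2 : Ideal.Quotient.mk I (monomial e (coeff e z)) =
      coeff e z • Ideal.Quotient.mk I (monomial e 1) := by
    rw [← Ideal.Quotient.mk_eq_mk, ← Ideal.Quotient.mk_eq_mk, ← Submodule.Quotient.mk_smul,
      smul_monomial, smul_eq_mul, mul_one]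
  rw [h2]
  exact Submodule.smul_mem_smul h1 trivial

lemma SA1_out {y : MvPolynomial (Fin n) R ⧸ I} (hy : y ∈ RingHom.ker (m : R →+* ℂ) •
      (⊤ : Submodule R (MvPolynomial (Fin n) R ⧸ I))) :
    ∀ z, Ideal.Quotient.mk I z = y → MvPolynomial.map (m : R →+* ℂ) z ∈ fib m I := by
  refine Submodule.smul_induction_on hy ?_ ?_
  · rintro r hr y - z hz
    obtain ⟨y', rfl⟩ := Ideal.Quotient.mk_surjective y
    have h1 : z - r • y' ∈ I := by
      have h0 : Ideal.Quotient.mk I (r • y') = r • Ideal.Quotient.mk I y' := rfl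
      rw [← Ideal.Quotient.eq_zero_iff_mem, map_sub, hz, h0, sub_self]
    have h2 : MvPolynomial.map (m : R →+* ℂ) z =
        MvPolynomial.map (m : R →+* ℂ) (z - r • y') := by
      rw [map_sub, MvPolynomial.smul_eq_C_mul, map_mul, map_C, RingHom.mem_ker.1 hr, map_zero,
        zero_mul, sub_zero]
    rw [h2]
    exact Ideal.mem_map_of_mem _ h1
  · intro y y' hy hy' z hz
    obtain ⟨u, rfl⟩ := Ideal.Quotient.mk_surjective y
    have h1 := hy u rfl
    have h2 := hy' (z - u) (by rw [map_sub, hz, add_sub_cancel_left])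
    have h3 := Ideal.add_mem _ h1 h2
    rwa [← map_add, add_sub_cancel] at h3

end

theorem t_SA1 (hG : S_GFR) (hZ : S_ZDL) : S_SA1 := by
  intro n R _ _ _ _ I g hI
  have hN : IsNoetherianRing R := Algebra.FiniteType.isNoetherianRing ℂ R
  let P := MvPolynomial (Fin n) R
  let M := P ⧸ I
  let G : P := MvPolynomial.map (algebraMap ℂ R) g
  let gP : M →ₗ[P] M := LinearMap.lsmul P M G
  let gR : M →ₗ[R] M := gP.restrictScalars R
  have hgP : ∀ p : P, gR (Ideal.Quotient.mk I p) = Ideal.Quotient.mk I (G * p) := fun p => rfl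
  obtain ⟨b, hb, hF⟩ := hG R P (M ⧸ LinearMap.range gP)
  refine ⟨b, hb, ?_⟩
  have hF' : FlatAt (M ⧸ LinearMap.range gR) b := by
    intro k a y hy
    let e : (M ⧸ LinearMap.range gR) ≃ₗ[R] (M ⧸ LinearMap.range gP) :=
      Submodule.Quotient.restrictScalarsEquiv R (LinearMap.range gP)
    obtain ⟨c, l, B, z, h1, h2⟩ := hF k a (fun i => e (y i)) (by
      simp only [← map_smul, ← map_sum, hy, map_zero])
    refine ⟨c, l, B, fun j => e.symm (z j), fun i => ?_, h2⟩
    apply e.injective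
    rw [map_smul, h1 i, map_sum]
    refine Finset.sum_congr rfl fun j _ => ?_
    rw [map_smul, LinearEquiv.apply_symm_apply]
  intro m hm q hq
  have hinj : Function.Injective gR := by
    rw [injective_iff_map_eq_zero]
    intro y hy
    obtain ⟨p, rfl⟩ := Ideal.Quotient.mk_surjective y
    rw [hgP, Ideal.Quotient.eq_zero_iff_mem] at hy
    rw [Ideal.Quotient.eq_zero_iff_mem]
    exact hI p hy
  obtain ⟨p, hp, hpq⟩ := mem_fib.1 hq
  have h1 : gR (Ideal.Quotient.mk I (MvPolynomial.map (algebraMap ℂ R) q)) ∈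
      RingHom.ker (m : R →+* ℂ) • (⊤ : Submodule R M) := by
    rw [hgP]
    have h2 : Ideal.Quotient.mk I (G * MvPolynomial.map (algebraMap ℂ R) q) =
        Ideal.Quotient.mk I (G * MvPolynomial.map (algebraMap ℂ R) q - p) := by
      rw [map_sub, Ideal.Quotient.eq_zero_iff_mem.2 hp, sub_zero]
    rw [h2]
    refine SA1_in ?_
    rw [map_sub, map_mul, hpq, map_alg, map_alg, sub_self]
  have h2 := hZ R M gR hinj b hF' (RingHom.ker (m : R →+* ℂ)) (ker_isMaximal m)
    (fun h => hm (RingHom.mem_ker.1 h)) _ h1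
  have h3 := SA1_out h2 _ rfl
  rwa [map_alg] at h3

end BorderVSP
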