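import Pool.Agent.T2h12.SL.Stm

/-! Task SAT: the general fibre is saturated. -/

set_option autoImplicit false

open MvPolynomial CategoryTheory AlgebraicGeometry

namespace BorderVSP

theorem t_SAT (hGEN : S_GEN) (hMUL : S_MUL) (hSA1 : S_SA1) : S_SAT := by
  intro D v hv h R _ _ _ _ I hI m0 r x hx hJ
  obtain ⟨g, hgB, hgv, hgx⟩ := hGEN D v hv r x hx
  obtain ⟨b, hb, H⟩ := hSA1 D.n R I g (hMUL D v h R I hI m0 r x hJ g hgv hgx)
  refine ⟨b, hb, fun m hm q hq => ?_⟩
  obtain ⟨N, hN⟩ := hq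
  have h1 : ∀ k : ℕ, g ^ k * q ∈ fib m I → q ∈ fib m I := by
    intro k
    induction k with
    | zero => intro hk; simpa using hk
    | succ k ih =>
      intro hk
      apply ih
      apply H m hm
      rw [← mul_assoc, ← pow_succ']
      exact hk
  exact h1 N (hN (g ^ N) (Ideal.pow_mem_pow hgB N))

end BorderVSP
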