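import Mathlib
import Pool.Agent.T2h12.SL.Stm

open MvPolynomial

namespace BorderVSP

theorem t_SYM : S_SYM := by
  intro R ι _ _ _ L hproj
  obtain ⟨s, hs⟩ := Module.projective_lifting_property L.mkQ (LinearMap.id (R := R)) L.mkQ_surjective
  have hs' : ∀ y, L.mkQ (s y) = y := fun y => congrArg (fun k : ((ι → R) ⧸ L) →ₗ[R] _ => k y) hs
  let q : (ι → R) →ₗ[R] (ι → R) := s ∘ₗ L.mkQ
  have hq : ∀ u, q (q u) = q u := by
    intro u
    show s (L.mkQ (s (L.mkQ u))) = s (L.mkQ u)
    rw [hs']
  have hker : LinearMap.ker q = L := by
    ext u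
    rw [LinearMap.mem_ker]
    constructor
    · intro h
      have h1 : L.mkQ (s (L.mkQ u)) = 0 := by
        have : s (L.mkQ u) = 0 := h
        rw [this, map_zero]
      rw [hs'] at h1
      exact (Submodule.Quotient.mk_eq_zero L).1 h1
    · intro h
      show s (L.mkQ u) = 0
      have h1 : L.mkQ u = 0 := (Submodule.Quotient.mk_eq_zero L).2 h
      rw [h1, map_zero]
  let ρ : MvPolynomial ι R →ₐ[R] MvPolynomial ι R := aeval fun e => lin (q (Pi.single e 1))
  have hρ : ∀ e, ρ (X e) = lin (q (Pi.single e 1)) := fun e => aeval_X _ _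
  have hlin_add : ∀ u u' : ι → R, lin (u + u') = lin u + lin u' := by
    intro u u'
    simp [lin, add_mul, Finset.sum_add_distrib]
  have hlin_smul : ∀ (c : R) (u : ι → R), lin (c • u) = C c * lin u := by
    intro c u
    simp [lin, Finset.mul_sum, mul_assoc]
  have hlin_sum : ∀ u : ι → R, ∀ T : Finset ι, lin (q (∑ e ∈ T, u e • Pi.single e (1 : R))) =
      ∑ e ∈ T, C (u e) * lin (q (Pi.single e 1)) := by
    intro u T
    classical
    induction T using Finset.induction_on with
    | empty => simp [lin]
    | insert a T ha ih =>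
      rw [Finset.sum_insert ha, Finset.sum_insert ha, map_add, hlin_add, ih, map_smul, hlin_smul]
  have hdec : ∀ u : ι → R, u = ∑ e, u e • Pi.single e (1 : R) := by
    intro u
    ext i
    simp [Finset.sum_apply, Pi.single_apply]
  have hρlin : ∀ u, ρ (lin u) = lin (q u) := by
    intro u
    conv_rhs => rw [hdec u, hlin_sum]
    rw [lin, map_sum]
    refine Finset.sum_congr rfl fun e _ => ?_
    rw [map_mul, hρ]
    congr 1
    exact ρ.commutes (u e)
  refine ⟨q, ρ, hq, hker, hρ, ?_⟩
  apply le_antisymm
  · intro p hp
    set J : Ideal (MvPolynomial ι R) := Ideal.span {p | ∃ u ∈ L, p = lin u} with hJ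
    have h1 : ∀ p : MvPolynomial ι R, p - ρ p ∈ J := by
      intro p
      induction p using MvPolynomial.induction_on with
      | C c =>
        have : ρ (C c) = C c := ρ.commutes c
        rw [this, sub_self]
        exact J.zero_mem
      | add p p' h h' =>
        have : p + p' - ρ (p + p') = (p - ρ p) + (p' - ρ p') := by rw [map_add]; ring
        rw [this]
        exact J.add_mem h h'
      | mul_X p e h =>
        have h2 : X e - ρ (X e) ∈ J := by
          refine Ideal.subset_span ⟨Pi.single e 1 - q (Pi.single e 1), ?_, ?_⟩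
          · rw [← hker, LinearMap.mem_ker, map_sub, hq, sub_self]
          · rw [hρ, sub_eq_add_neg (Pi.single e 1), ← neg_one_smul R (q (Pi.single e 1)), hlin_add,
              hlin_smul]
            have h3 : lin (Pi.single e (1 : R)) = X e := by
              rw [lin, Finset.sum_eq_single e]
              · simp
              · intro b _ hb
                simp [Pi.single_apply, hb]
              · intro h; exact absurd (Finset.mem_univ _) h
            rw [h3, C_neg, C_1]
            ring
        have h4 : p * X e - ρ (p * X e) = (p - ρ p) * X e + ρ p * (X e - ρ (X e)) := by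
          rw [map_mul]; ring
        rw [h4]
        exact J.add_mem (J.mul_mem_right _ h) (J.mul_mem_left _ h2)
    have h2 := h1 p
    have hp' : ρ p = 0 := hp
    rw [hp', sub_zero] at h2
    exact h2
  · rw [Ideal.span_le]
    rintro _ ⟨u, hu, rfl⟩
    show ρ (lin u) = 0
    rw [hρlin]
    have : q u = 0 := by rw [← LinearMap.mem_ker, hker]; exact hu
    rw [this]
    simp [lin]

end BorderVSP
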