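import Mathlib
import Pool.Agent.T2h12.SL.Stm

/-!
# Project SL: TOP
-/

set_option autoImplicit false

open MvPolynomial CategoryTheory AlgebraicGeometry

namespace BorderVSP

namespace TOP

/-- A maximal irreducible subset of a Noetherian subspace contains a nonempty open set. -/
theorem exists_open {X : Type} [TopologicalSpace X] [TopologicalSpace.NoetherianSpace X]
    (V Z : Set X) (hZ : Maximal (fun Z : Set X => IsIrreducible Z ∧ Z ⊆ V) Z) :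
    ∃ W : Set X, IsOpen W ∧ (V ∩ W).Nonempty ∧ V ∩ W ⊆ Z := by
  have hZV : Z ⊆ V := hZ.prop.2
  have hir : IsIrreducible Z := hZ.prop.1
  have hmem : (Subtype.val ⁻¹' Z : Set V) ∈ irreducibleComponents V := by
    refine ⟨⟨?_, ?_⟩, ?_⟩
    · obtain ⟨x, hx⟩ := hir.1
      exact ⟨⟨x, hZV hx⟩, hx⟩
    · rintro u u' hu hu' ⟨x, hx, hxu⟩ ⟨y, hy, hyu⟩
      obtain ⟨u0, hu0, rfl⟩ := isOpen_induced_iff.1 hu
      obtain ⟨u1, hu1, rfl⟩ := isOpen_induced_iff.1 hu'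
      obtain ⟨z, hz, hz0, hz1⟩ := hir.2 u0 u1 hu0 hu1 ⟨x, hx, hxu⟩ ⟨y, hy, hyu⟩
      exact ⟨⟨z, hZV hz⟩, hz, hz0, hz1⟩
    · intro T hT hle
      have h1 : IsIrreducible (Subtype.val '' T : Set X) :=
        hT.image _ continuous_subtype_val.continuousOn
      have h2 : Z ⊆ Subtype.val '' T := fun x hx => ⟨⟨x, hZV hx⟩, hle hx, rfl⟩
      have h3 : (Subtype.val '' T : Set X) ⊆ V := by
        rintro _ ⟨y, -, rfl⟩
        exact y.2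
      have h4 := hZ.le_of_ge ⟨h1, h3⟩ h2
      intro y hy
      exact h4 ⟨y, hy, rfl⟩
  obtain ⟨o, ho, hne, hsub⟩ :=
    TopologicalSpace.NoetherianSpace.exists_isOpen_nonempty_subset_irreducibleComponent _ hmem
  obtain ⟨W, hW, rfl⟩ := isOpen_induced_iff.1 ho
  refine ⟨W, hW, ?_, ?_⟩
  · obtain ⟨x, hx⟩ := hne
    exact ⟨x.1, x.2, hx⟩
  · rintro x ⟨hxV, hxW⟩
    exact hsub (show (⟨x, hxV⟩ : V) ∈ Subtype.val ⁻¹' W from hxW)

end TOP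

open TOP in
theorem t_TOP (hN : S_NOE) (hA : S_APO) : S_TOP := by
  intro D v h H r k ch hcov F b hb hd Z hZ
  have : TopologicalSpace.NoetherianSpace H.Pts := hN D h H
  obtain ⟨W0, hW0, ⟨J, hJV, hJW⟩, hsub⟩ := exists_open (H.VSP r F) Z hZ
  obtain ⟨i, m, rfl⟩ := hcov J hJV.1
  obtain ⟨J0, hJ0⟩ := (ch i).closedSet W0ᶜ hW0.isClosed_compl
  have h1 : ∃ c ∈ J0, m c ≠ 0 := by
    by_contra hcon
    push Not at hcon
    exact (hJ0 m).2 hcon hJW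
  obtain ⟨c, hc, hmc⟩ := h1
  have h2 : ∃ m' : (ch i).R →ₐ[ℂ] ℂ, (∀ g ∈ fib m' (ch i).I, CoxData.pair F g = 0) ∧
      m' (b i) ≠ 0 ∧ m' c ≠ 0 := by
    by_contra hcon
    push Not at hcon
    refine hmc (hd i c hcon m ?_)
    have h3 := (hA.1 D v F (H.ideal ((ch i).p m))).1 hJV.2
    rw [(ch i).ideal_p m] at h3
    exact h3
  obtain ⟨m', hm1, hm2, hm3⟩ := h2
  have h4 : (ch i).p m' ∈ Z := by
    refine hsub ⟨⟨(ch i).mem_slip m', ?_⟩, ?_⟩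
    · refine (hA.1 D v F (H.ideal ((ch i).p m'))).2 ?_
      rw [(ch i).ideal_p m']
      exact hm1
    · by_contra hcon
      exact hm3 ((hJ0 m').1 hcon c hc)
  obtain ⟨W, hW, hWp⟩ := (ch i).openSet (b i)
  have h5 : (ch i).p m' ∈ W := by
    have : (ch i).p m' ∈ W ∩ H.Slip r := by
      rw [hWp]
      exact ⟨m', hm2, rfl⟩
    exact this.1
  have hsat : ∀ J' ∈ Z ∩ W, D.Saturated (H.ideal J') := by
    rintro J' ⟨hJZ, hJW'⟩
    have h6 : J' ∈ W ∩ H.Slip r := ⟨hJW', (hZ.prop.2 hJZ).1⟩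
    rw [hWp] at h6
    obtain ⟨m2, hm2', rfl⟩ := h6
    rw [(ch i).ideal_p m2]
    exact hb i m2 hm2'
  refine ⟨⟨W, hW, ⟨_, h4, h5⟩, hsat⟩, ?_⟩
  rintro ⟨W2, hW2, hne, hns⟩
  obtain ⟨J2, hJ2, hJ2W, hJ2W2⟩ := hZ.prop.1.2 W W2 hW hW2 ⟨_, h4, h5⟩ hne
  exact hns J2 ⟨hJ2, hJ2W2⟩ (hsat J2 ⟨hJ2, hJ2W⟩)

end BorderVSP
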