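import Mathlib
import Pool.Agent.T2h12.SL.Stm

/-!
# ZDL: nonzerodivisors and flatness
-/

open MvPolynomial CategoryTheory AlgebraicGeometry

namespace BorderVSP

lemma ZDL_sum {R M : Type} [CommRing R] [AddCommGroup M] [Module R M] (I : Ideal R) {z : M}
    (hz : z ∈ I • (⊤ : Submodule R M)) :
    ∃ (k : ℕ) (a : Fin k → R) (y : Fin k → M), (∀ i, a i ∈ I) ∧ z = ∑ i, a i • y i := by
  refine Submodule.smul_induction_on hz ?_ ?_
  · intro r hr n _
    exact ⟨1, fun _ => r, fun _ => n, fun _ => hr, by simp⟩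
  · rintro _ _ ⟨k, a, y, ha, rfl⟩ ⟨l, b, z, hb, rfl⟩
    refine ⟨k + l, Fin.append a b, Fin.append y z, ?_, ?_⟩
    · intro i
      refine Fin.addCases (fun i => ?_) (fun i => ?_) i
      · rw [Fin.append_left]; exact ha i
      · rw [Fin.append_right]; exact hb i
    · rw [Fin.sum_univ_add]
      simp only [Fin.append_left, Fin.append_right]

theorem t_ZDL : S_ZDL := by
  intro R M _ _ _ g hg f hf 𝔪 h𝔪 hfm x hx
  obtain ⟨k, a, y, ha, hy⟩ := ZDL_sum 𝔪 hx
  obtain ⟨e, l, b, z, h1, h2⟩ := hf k a (fun i => (LinearMap.range g).mkQ (y i)) (by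
    simp only [← map_smul, ← map_sum, ← hy]
    rw [Submodule.mkQ_apply, Submodule.Quotient.mk_eq_zero]
    exact ⟨x, rfl⟩)
  choose z' hz' using fun j => (LinearMap.range g).mkQ_surjective (z j)
  have h3 : ∀ i, ∃ u, g u = f ^ e • y i - ∑ j, b i j • z' j := by
    intro i
    have h4 : (LinearMap.range g).mkQ (f ^ e • y i - ∑ j, b i j • z' j) = 0 := by
      rw [map_sub, map_smul, map_sum]
      simp only [map_smul, hz']
      rw [h1 i, sub_self]
    rw [Submodule.mkQ_apply, Submodule.Quotient.mk_eq_zero] at h4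
    exact h4
  choose u hu using h3
  have h4 : g (f ^ e • x) = g (∑ i, a i • u i) := by
    rw [map_smul, map_sum, hy, Finset.smul_sum]
    simp only [map_smul, hu, smul_sub, Finset.smul_sum]
    rw [Finset.sum_sub_distrib, Finset.sum_comm (f := fun i j => a i • b i j • z' j)]
    have h5 : ∑ j, ∑ i, a i • b i j • z' j = 0 := by
      refine Finset.sum_eq_zero fun j _ => ?_
      simp only [smul_smul]
      rw [← Finset.sum_smul, h2 j, zero_smul]
    rw [h5, sub_zero]
    refine Finset.sum_congr rfl fun i _ => ?_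
    rw [smul_smul, smul_smul, mul_comm]
  have h5 := hg h4
  have h6 : f ^ e • x ∈ 𝔪 • (⊤ : Submodule R M) := by
    rw [h5]
    exact Submodule.sum_mem _ fun i _ => Submodule.smul_mem_smul (ha i) trivial
  have h7 : f ^ e ∉ 𝔪 := fun h => hfm (h𝔪.isPrime.mem_of_pow_mem e h)
  obtain ⟨r, s, hs, hr⟩ := h𝔪.exists_inv h7
  have h8 : x = r • (f ^ e • x) + s • x := by
    rw [smul_smul, ← add_smul, hr, one_smul]
  rw [h8]
  exact Submodule.add_mem _ (Submodule.smul_mem _ _ h6) (Submodule.smul_mem_smul hs trivial)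

end BorderVSP
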