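import Pool.Agent.T2h12.SL.T_GF1
import Pool.Agent.T2h12.SL.T_GFR
import Pool.Agent.T2h12.SL.T_ZDL
import Pool.Agent.T2h12.SL.T_INJ
import Pool.Agent.T2h12.SL.T_GEN
import Pool.Agent.T2h12.SL.T_MUL
import Pool.Agent.T2h12.SL.T_SA1
import Pool.Agent.T2h12.SL.T_SAT
import Pool.Agent.T2h12.SL.T_SYM
import Pool.Agent.T2h12.SL.T_LPR
import Pool.Agent.T2h12.SL.T_APO
import Pool.Agent.T2h12.SL.T_PRI
import Pool.Agent.T2h12.SL.T_PRM
import Pool.Agent.T2h12.SL.T_COR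
import Pool.Agent.T2h12.SL.T_AT1
import Pool.Agent.T2h12.SL.T_AT2
import Pool.Agent.T2h12.SL.T_AT3
import Pool.Agent.T2h12.SL.T_NOE
import Pool.Agent.T2h12.SL.T_ATL
import Pool.Agent.T2h12.SL.T_TOP
import Pool.Agent.T2h12.SL.T_GLU
import Pool.Agent.T2h12.SL.T_HOM
import Pool.Agent.T2h12.SL.T_FIN

/-! Assembly of project SL. -/

namespace BorderVSP

theorem fin : S_FIN := by
  have hGF1 : S_GF1 := t_GF1
  have hGFR : S_GFR := t_GFR hGF1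
  have hZDL : S_ZDL := t_ZDL
  have hINJ : S_INJ := t_INJ
  have hGEN : S_GEN := t_GEN
  have hMUL : S_MUL := t_MUL hINJ
  have hSA1 : S_SA1 := t_SA1 hGFR hZDL
  have hSAT : S_SAT := t_SAT hGEN hMUL hSA1
  have hSYM : S_SYM := t_SYM
  have hLPR : S_LPR := t_LPR
  have hAPO : S_APO := t_APO
  have hPRI : S_PRI := t_PRI hSYM hLPR
  have hPRM : S_PRM := t_PRM
  have hCOR : S_COR := t_COR hGFR hZDL hSYM hLPR hAPO hPRI hPRM
  have hBRK : S_BRK := t_BRK hPRM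
  have hAT1 : S_AT1 := t_AT1
  have hAT2 : S_AT2 := t_AT2
  have hAT3 : S_AT3 := t_AT3 hAT2
  have hNOE : S_NOE := t_NOE
  have hATL : S_ATL := t_ATL hAT1 hAT3
  have hTOP : S_TOP := t_TOP hNOE hAPO
  have hGLU : S_GLU := t_GLU hATL hSAT hCOR hTOP hPRM
  exact t_FIN hGLU hBRK hPRM t_HOM

end BorderVSP
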