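import Mathlib
import Pool.Agent.T2h12.SL.Stm

open MvPolynomial CategoryTheory AlgebraicGeometry

namespace BorderVSP

namespace COR

theorem flatAt_congr {R : Type} [CommRing R] {N N' : Type} [AddCommGroup N] [Module R N]
    [AddCommGroup N'] [Module R N'] (e : N ≃ₗ[R] N') (f : R) (h : FlatAt N f) : FlatAt N' f := by
  intro k a y hy
  have h1 : ∑ i, a i • e.symm (y i) = 0 := by
    have := congrArg e.symm hy
    simpa using this
  obtain ⟨n, l, b, z, h2, h3⟩ := h k a _ h1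
  refine ⟨n, l, b, fun j => e (z j), fun i => ?_, h3⟩
  have := congrArg e (h2 i)
  simpa using this

/-- Generic injectivity. -/
theorem core (hGFR : S_GFR) (hZDL : S_ZDL) {A B : Type} [CommRing A] [IsDomain A]
    [IsNoetherianRing A] [CommRing B] [IsDomain B] [Algebra A B] [Algebra.FiniteType A B]
    (β : B) (hβ : β ≠ 0) :
    ∃ f : A, f ≠ 0 ∧ ∀ 𝔪 : Ideal A, 𝔪.IsMaximal → f ∉ 𝔪 →
      ∀ y : B, β * y ∈ 𝔪.map (algebraMap A B) → y ∈ 𝔪.map (algebraMap A B) := by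
  obtain ⟨f, hf, hflat⟩ := hGFR A B (B ⧸ Ideal.span {β})
  refine ⟨f, hf, fun 𝔪 h𝔪 hf𝔪 y hy => ?_⟩
  let g : B →ₗ[A] B := LinearMap.mulLeft A β
  have hg : Function.Injective g := fun x y h => mul_left_cancel₀ hβ h
  have hrange : (LinearMap.range g) = (Ideal.span {β}).restrictScalars A := by
    ext x
    simp only [LinearMap.mem_range, Submodule.restrictScalars_mem, Ideal.mem_span_singleton']
    constructor
    · rintro ⟨y, rfl⟩; exact ⟨y, mul_comm _ _⟩
    · rintro ⟨y, rfl⟩; exact ⟨y, mul_comm _ _⟩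
  have hflat' : FlatAt (B ⧸ LinearMap.range g) f := by
    refine flatAt_congr ?_ f hflat
    exact (Submodule.Quotient.restrictScalarsEquiv A (Ideal.span {β})).symm.trans
      (Submodule.quotEquivOfEq _ _ hrange.symm)
  have h1 := hZDL A B g hg f hflat' 𝔪 h𝔪 hf𝔪 y
  rw [Ideal.smul_top_eq_map] at h1
  exact h1 hy

/-- Nullstellensatz. -/
theorem nullst {R : Type} [CommRing R] [Algebra ℂ R] [Algebra.FiniteType ℂ R] (𝔞 : Ideal R)
    (x : R) (hx : ∀ m : R →ₐ[ℂ] ℂ, (∀ a ∈ 𝔞, m a = 0) → m x = 0) : ∃ N : ℕ, x ^ N ∈ 𝔞 := by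
  have hJ : IsJacobsonRing R := isJacobsonRing_of_finiteType (A := ℂ)
  change x ∈ 𝔞.radical
  rw [Ideal.radical_eq_jacobson, Ideal.jacobson, Ideal.mem_sInf]
  rintro M ⟨hM, hmax⟩
  have hmax' : M.IsMaximal := hmax
  let _ : Field (R ⧸ M) := Ideal.Quotient.field M
  have hft : Algebra.FiniteType ℂ (R ⧸ M) := inferInstance
  have hfin : Module.Finite ℂ (R ⧸ M) := finite_of_finite_type_of_isJacobsonRing ℂ (R ⧸ M)
  have hbij : Function.Bijective (algebraMap ℂ (R ⧸ M)) :=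
    IsAlgClosed.algebraMap_bijective_of_isIntegral
  let e : ℂ ≃ₐ[ℂ] (R ⧸ M) := AlgEquiv.ofBijective (Algebra.ofId ℂ (R ⧸ M)) hbij
  let m : R →ₐ[ℂ] ℂ := (e.symm : (R ⧸ M) →ₐ[ℂ] ℂ).comp (Ideal.Quotient.mkₐ ℂ M)
  have hm : ∀ y, m y = 0 ↔ y ∈ M := by
    intro y
    show e.symm (Ideal.Quotient.mk M y) = 0 ↔ _
    rw [EmbeddingLike.map_eq_zero_iff, Ideal.Quotient.eq_zero_iff_mem]
  exact (hm x).1 (hx m fun a ha => (hm a).2 (hM ha))

end COR

open COR

theorem t_COR (hGFR : S_GFR) (hZDL : S_ZDL) (hSYM : S_SYM) (hLPR : S_LPR) (hAPO : S_APO)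
    (hPRI : S_PRI) (hPRM : S_PRM) : S_COR := by
  intro D v h R _ _ _ _ I hI r hE b hb
  obtain ⟨P, hPp, hP1, hP2⟩ := hPRM D v r
  obtain ⟨q, ρ, hq, hker, hρ, hρk⟩ := hSYM R (D.Mon v) (Lv v I) (hLPR D v h R I hI)
  set 𝔏 : Ideal (MvPolynomial (D.Mon v) R) := Ideal.span {p | ∃ u ∈ Lv v I, p = lin u} with h𝔏
  have h𝔏p : 𝔏.IsPrime := by rw [← hρk]; exact RingHom.ker_isPrime ρ
  have hapo := fun (F : D.T v) (m : R →ₐ[ℂ] ℂ) => hAPO.2 D v F R I hI.1 m
  -- evaluation kills `𝔏`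
  have hkill : ∀ (F : D.T v) (m : R →ₐ[ℂ] ℂ), (∀ g ∈ fib m I, CoxData.pair F g = 0) →
      ∀ p ∈ 𝔏, eval₂Hom (m : R →+* ℂ) F p = 0 := by
    intro F m hm p hp
    have h1 : 𝔏 ≤ RingHom.ker (eval₂Hom (m : R →+* ℂ) F) := by
      rw [h𝔏, Ideal.span_le]
      rintro _ ⟨u, hu, rfl⟩
      have h2 := (hapo F m).1 hm u hu
      show eval₂Hom (m : R →+* ℂ) F (lin u) = 0
      rw [lin, map_sum, ← h2]
      refine Finset.sum_congr rfl fun e _ => ?_
      rw [map_mul, coe_eval₂Hom, eval₂_C, eval₂_X]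
      rfl
    exact h1 hp
  have hevmap : ∀ (F : D.T v) (m : R →ₐ[ℂ] ℂ) (f : MvPolynomial (D.Mon v) ℂ),
      eval₂Hom (m : R →+* ℂ) F (MvPolynomial.map (algebraMap ℂ R) f) = eval F f := by
    intro F m f
    rw [coe_eval₂Hom, eval₂_map]
    have h1 : (m : R →+* ℂ).comp (algebraMap ℂ R) = RingHom.id ℂ := m.comp_algebraMap
    rw [h1]
    rfl
  have hex : ∀ f : MvPolynomial (D.Mon v) ℂ, f ∉ P → ∃ F ∈ CoxData.secant v r, eval F f ≠ 0 := by
    intro f hf
    by_contra hcon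
    push Not at hcon
    exact hf ((hP1 f).2 hcon)
  by_cases hQ : 𝔏.comap (MvPolynomial.map (algebraMap ℂ R)) ≤ P
  swap
  · obtain ⟨f, hf1, hf2⟩ := Set.not_subset.1 hQ
    refine ⟨f, hex f hf2, fun F _ hFf c _ m hm => ?_⟩
    exfalso
    apply hFf
    rw [← hevmap F m f]
    exact hkill F m hm _ hf1
  · have hPQ : P ≤ 𝔏.comap (MvPolynomial.map (algebraMap ℂ R)) := fun f hf =>
      hPRI D v h R I hI r hE f ((hP1 f).1 hf)
    let κ : (MvPolynomial (D.Mon v) ℂ ⧸ P) →+* (MvPolynomial (D.Mon v) R ⧸ 𝔏) :=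
      Ideal.quotientMap 𝔏 (MvPolynomial.map (algebraMap ℂ R)) hPQ
    let _ : Algebra (MvPolynomial (D.Mon v) ℂ ⧸ P) (MvPolynomial (D.Mon v) R ⧸ 𝔏) := κ.toAlgebra
    have hκ : ∀ f, algebraMap (MvPolynomial (D.Mon v) ℂ ⧸ P) (MvPolynomial (D.Mon v) R ⧸ 𝔏)
        (Ideal.Quotient.mk P f) = Ideal.Quotient.mk 𝔏 (MvPolynomial.map (algebraMap ℂ R) f) :=
      fun f => Ideal.quotientMap_mk
    have htower : IsScalarTower ℂ (MvPolynomial (D.Mon v) ℂ ⧸ P)
        (MvPolynomial (D.Mon v) R ⧸ 𝔏) := by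
      refine IsScalarTower.of_algebraMap_eq (R := ℂ) (S := MvPolynomial (D.Mon v) ℂ ⧸ P)
        (A := MvPolynomial (D.Mon v) R ⧸ 𝔏) fun z => ?_
      have h1 : algebraMap ℂ (MvPolynomial (D.Mon v) ℂ ⧸ P) z = Ideal.Quotient.mk P (C z) := rfl
      rw [h1, hκ, map_C]
      rfl
    have hftR : Algebra.FiniteType ℂ (MvPolynomial (D.Mon v) R) :=
      Algebra.FiniteType.trans (S := R) inferInstance inferInstance
    have hft0 : Algebra.FiniteType ℂ (MvPolynomial (D.Mon v) R ⧸ 𝔏) :=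
      Algebra.FiniteType.trans (S := MvPolynomial (D.Mon v) R) hftR inferInstance
    have hft : Algebra.FiniteType (MvPolynomial (D.Mon v) ℂ ⧸ P)
        (MvPolynomial (D.Mon v) R ⧸ 𝔏) :=
      Algebra.FiniteType.of_restrictScalars_finiteType ℂ _ _
    have hb' : Ideal.Quotient.mk 𝔏 (C b) ≠ 0 := by
      intro h0
      rw [Ideal.Quotient.eq_zero_iff_mem] at h0
      have h1 : 𝔏 ≤ RingHom.ker (constantCoeff (R := R) (σ := D.Mon v)) := by
        rw [h𝔏, Ideal.span_le]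
        rintro _ ⟨u, hu, rfl⟩
        show constantCoeff (lin u) = 0
        simp [lin]
      have h2 := h1 h0
      apply hb
      simpa using h2
    obtain ⟨f0, hf0, hcore⟩ := core hGFR hZDL (A := MvPolynomial (D.Mon v) ℂ ⧸ P)
      (Ideal.Quotient.mk 𝔏 (C b)) hb'
    obtain ⟨f, rfl⟩ := Ideal.Quotient.mk_surjective f0
    have hfP : f ∉ P := fun hf => hf0 (Ideal.Quotient.eq_zero_iff_mem.2 hf)
    refine ⟨f, hex f hfP, fun F hF hFf c hc m hm => ?_⟩
    -- the maximal ideal of `F`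
    let εF : (MvPolynomial (D.Mon v) ℂ ⧸ P) →+* ℂ := Ideal.Quotient.lift P (eval F)
      fun p hp => (hP2 F).1 hF p hp
    have hεF : ∀ p, εF (Ideal.Quotient.mk P p) = eval F p := fun p => Ideal.Quotient.lift_mk _ _ _
    have hmax : (RingHom.ker εF).IsMaximal := RingHom.ker_isMaximal_of_surjective εF fun z =>
      ⟨Ideal.Quotient.mk P (C z), by rw [hεF, eval_C]⟩
    have hfm : Ideal.Quotient.mk P f ∉ RingHom.ker εF := by
      rw [RingHom.mem_ker, hεF]
      exact hFf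
    have hcore' := hcore _ hmax hfm
    -- the ideal `𝔞`
    let lF : (D.Mon v → R) → R := fun u => ∑ e, u e * algebraMap ℂ R (F e)
    let 𝔞 : Ideal R := Ideal.span {y | ∃ u ∈ Lv v I, y = lF u}
    have hA : ∀ y ∈ 𝔞, Ideal.Quotient.mk 𝔏 (C y) ∈ (RingHom.ker εF).map
        (algebraMap (MvPolynomial (D.Mon v) ℂ ⧸ P) (MvPolynomial (D.Mon v) R ⧸ 𝔏)) := by
      intro y hy
      have h1 : 𝔞 ≤ Ideal.comap ((Ideal.Quotient.mk 𝔏).comp C) ((RingHom.ker εF).map
          (algebraMap (MvPolynomial (D.Mon v) ℂ ⧸ P) (MvPolynomial (D.Mon v) R ⧸ 𝔏))) := by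
        rw [Ideal.span_le]
        rintro _ ⟨u, hu, rfl⟩
        rw [SetLike.mem_coe, Ideal.mem_comap, RingHom.comp_apply]
        have h2 : Ideal.Quotient.mk 𝔏 (C (lF u)) = ∑ e, Ideal.Quotient.mk 𝔏 (C (u e)) *
            algebraMap (MvPolynomial (D.Mon v) ℂ ⧸ P) (MvPolynomial (D.Mon v) R ⧸ 𝔏)
              (Ideal.Quotient.mk P (C (F e) - X e)) := by
          have h3 : Ideal.Quotient.mk 𝔏 (lin u) = 0 :=
            Ideal.Quotient.eq_zero_iff_mem.2 (Ideal.subset_span ⟨u, hu, rfl⟩)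
          have h4 : C (lF u) = lin u + ∑ e, C (u e) *
              MvPolynomial.map (algebraMap ℂ R) (C (F e) - X e) := by
            simp only [lF, lin, map_sum, map_mul, map_sub, map_C, map_X]
            rw [← Finset.sum_add_distrib]
            refine Finset.sum_congr rfl fun e _ => ?_
            ring
          rw [h4, map_add, h3, zero_add, map_sum]
          refine Finset.sum_congr rfl fun e _ => ?_
          rw [hκ, map_mul]
        rw [h2]
        refine Ideal.sum_mem _ fun e _ => Ideal.mul_mem_left _ _ (Ideal.mem_map_of_mem _ ?_)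
        rw [RingHom.mem_ker, hεF]
        simp
      exact h1 hy
    have hB : ∀ y : R, Ideal.Quotient.mk 𝔏 (C y) ∈ (RingHom.ker εF).map
        (algebraMap (MvPolynomial (D.Mon v) ℂ ⧸ P) (MvPolynomial (D.Mon v) R ⧸ 𝔏)) → y ∈ 𝔞 := by
      intro y hy
      let θ0 : MvPolynomial (D.Mon v) R →+* R ⧸ 𝔞 := eval₂Hom (Ideal.Quotient.mk 𝔞)
        fun e => Ideal.Quotient.mk 𝔞 (algebraMap ℂ R (F e))
      have hθ0 : 𝔏 ≤ RingHom.ker θ0 := by
        rw [h𝔏, Ideal.span_le]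
        rintro _ ⟨u, hu, rfl⟩
        show θ0 (lin u) = 0
        have h1 : θ0 (lin u) = Ideal.Quotient.mk 𝔞 (lF u) := by
          simp only [θ0, lin, lF, map_sum, map_mul, coe_eval₂Hom, eval₂_C, eval₂_X]
        rw [h1, Ideal.Quotient.eq_zero_iff_mem]
        exact Ideal.subset_span ⟨u, hu, rfl⟩
      let θ : (MvPolynomial (D.Mon v) R ⧸ 𝔏) →+* R ⧸ 𝔞 := Ideal.Quotient.lift 𝔏 θ0
        fun p hp => hθ0 hp
      have hθ : ∀ p, θ (Ideal.Quotient.mk 𝔏 p) = θ0 p := fun p => Ideal.Quotient.lift_mk _ _ _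
      have h2 : (RingHom.ker εF).map
          (algebraMap (MvPolynomial (D.Mon v) ℂ ⧸ P) (MvPolynomial (D.Mon v) R ⧸ 𝔏)) ≤
          RingHom.ker θ := by
        rw [Ideal.map_le_iff_le_comap]
        intro a ha
        obtain ⟨a, rfl⟩ := Ideal.Quotient.mk_surjective a
        rw [RingHom.mem_ker, hεF] at ha
        rw [Ideal.mem_comap, RingHom.mem_ker, hκ, hθ]
        have h3 : θ0 (MvPolynomial.map (algebraMap ℂ R) a) =
            (Ideal.Quotient.mk 𝔞) (algebraMap ℂ R (eval F a)) := by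
          have h4 : (θ0.comp (MvPolynomial.map (algebraMap ℂ R))) =
              ((Ideal.Quotient.mk 𝔞).comp (algebraMap ℂ R)).comp (eval F) := by
            apply MvPolynomial.ringHom_ext
            · intro z
              simp [θ0]
            · intro e
              simp [θ0]
          exact congrArg (fun k : MvPolynomial (D.Mon v) ℂ →+* R ⧸ 𝔞 => k a) h4
        rw [h3, ha, map_zero, map_zero]
      have h5 := h2 hy
      rw [RingHom.mem_ker, hθ] at h5
      have h6 : θ0 (C y) = Ideal.Quotient.mk 𝔞 y := by simp [θ0]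
      rw [h6, Ideal.Quotient.eq_zero_iff_mem] at h5
      exact h5
    have hcancel : ∀ y : R, b * y ∈ 𝔞 → y ∈ 𝔞 := by
      intro y hy
      apply hB
      apply hcore'
      rw [← map_mul, ← map_mul]
      exact hA _ hy
    have hiff : ∀ m : R →ₐ[ℂ] ℂ, (∀ a ∈ 𝔞, m a = 0) ↔ ∀ g ∈ fib m I, CoxData.pair F g = 0 := by
      intro m
      rw [hapo F m]
      have hlF : ∀ u, m (lF u) = ∑ e, m (u e) * F e := by
        intro u
        simp only [lF, map_sum, map_mul, AlgHom.commutes]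
        rfl
      constructor
      · intro h1 u hu
        rw [← hlF]
        exact h1 _ (Ideal.subset_span ⟨u, hu, rfl⟩)
      · intro h1 a ha
        have h2 : 𝔞 ≤ RingHom.ker (m : R →+* ℂ) := by
          rw [Ideal.span_le]
          rintro _ ⟨u, hu, rfl⟩
          show m (lF u) = 0
          rw [hlF]
          exact h1 u hu
        exact h2 ha
    obtain ⟨N, hN⟩ := nullst 𝔞 (b * c) (by
      intro m' hm'
      rw [map_mul]
      by_cases hbm : m' b = 0
      · rw [hbm, zero_mul]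
      · rw [hc m' ((hiff m').1 hm') hbm, mul_zero])
    have hcN : c ^ N ∈ 𝔞 := by
      rw [mul_pow] at hN
      have h1 : ∀ k : ℕ, b ^ k * c ^ N ∈ 𝔞 → c ^ N ∈ 𝔞 := by
        intro k
        induction k with
        | zero => intro h; simpa using h
        | succ k ih =>
          intro h
          apply ih
          apply hcancel
          rwa [pow_succ', mul_assoc] at h
      exact h1 N hN
    have h7 := (hiff m).2 hm _ hcN
    rw [map_pow] at h7
    by_contra h8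
    exact pow_ne_zero N h8 h7

end BorderVSP
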