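import Pool.Agent.T2h12.SL.Stm

namespace BorderVSP

namespace GF1

/-- the witnesses may be indexed by a finite type -/
lemma wit {R : Type} [CommRing R] {N : Type} [AddCommGroup N] [Module R N] {f : R}
    {k : ℕ} {a : Fin k → R} {y : Fin k → N} (ι : Type) [Fintype ι] (e : ℕ)
    (b : Fin k → ι → R) (z : ι → N) (h1 : ∀ i, f ^ e • y i = ∑ j, b i j • z j)
    (h2 : ∀ j, ∑ i, a i * b i j = 0) :
    ∃ (e l : ℕ) (b : Fin k → Fin l → R) (z : Fin l → N),
      (∀ i, f ^ e • y i = ∑ j, b i j • z j) ∧ ∀ j, ∑ i, a i * b i j = 0 := by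
  refine ⟨e, Fintype.card ι, fun i j => b i ((Fintype.equivFin ι).symm j),
    fun j => z ((Fintype.equivFin ι).symm j), fun i => ?_, fun j => h2 _⟩
  rw [h1]
  exact ((Fintype.equivFin ι).symm.sum_comp (fun j => b i j • z j)).symm

lemma mul_right {R : Type} [CommRing R] {N : Type} [AddCommGroup N] [Module R N] {f : R} (g : R)
    (h : FlatAt N f) : FlatAt N (f * g) := by
  intro k a y hy
  obtain ⟨e, l, b, z, h1, h2⟩ := h k a y hy
  refine ⟨e, l, fun i j => g ^ e * b i j, z, fun i => ?_, fun j => ?_⟩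
  · rw [mul_pow, mul_comm, mul_smul, h1, Finset.smul_sum]
    exact Finset.sum_congr rfl fun j _ => by rw [mul_smul]
  · have : ∑ i, a i * (g ^ e * b i j) = g ^ e * ∑ i, a i * b i j := by
      rw [Finset.mul_sum]
      exact Finset.sum_congr rfl fun i _ => by ring
    rw [this, h2, mul_zero]

lemma equiv {R : Type} [CommRing R] {N N' : Type} [AddCommGroup N] [Module R N]
    [AddCommGroup N'] [Module R N'] (φ : N ≃ₗ[R] N') {f : R} (h : FlatAt N f) : FlatAt N' f := by
  intro k a y hy
  have hy' : ∑ i, a i • φ.symm (y i) = 0 := by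
    have := congrArg φ.symm hy
    simpa only [map_sum, map_smul, map_zero] using this
  obtain ⟨e, l, b, z, h1, h2⟩ := h k a _ hy'
  refine ⟨e, l, b, fun j => φ (z j), fun i => ?_, h2⟩
  have := congrArg φ (h1 i)
  simpa only [map_sum, map_smul, LinearEquiv.apply_symm_apply] using this

lemma ext {R : Type} [CommRing R] {N : Type} [AddCommGroup N] [Module R N]
    (K : Submodule R N) {f : R} (hK : FlatAt K f) (hQ : FlatAt (N ⧸ K) f) : FlatAt N f := by
  intro k a y hy
  have hy' : ∑ i, a i • K.mkQ (y i) = 0 := by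
    have := congrArg K.mkQ hy
    simpa only [map_sum, map_smul, map_zero] using this
  obtain ⟨e, l, b, z, h1, h2⟩ := hQ k a _ hy'
  choose z' hz' using fun j => K.mkQ_surjective (z j)
  have hmem : ∀ i, f ^ e • y i - ∑ j, b i j • z' j ∈ K := by
    intro i
    rw [← Submodule.Quotient.mk_eq_zero, ← Submodule.mkQ_apply, map_sub, map_smul, h1, map_sum,
      sub_eq_zero]
    exact Finset.sum_congr rfl fun j _ => by rw [map_smul, hz']
  have hsum : ∑ i, a i • (⟨_, hmem i⟩ : K) = 0 := by
    apply Subtype.ext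
    rw [AddSubmonoidClass.coe_finsetSum]
    simp only [Submodule.coe_smul, Submodule.coe_zero, smul_sub, Finset.sum_sub_distrib]
    have e1 : ∑ i, a i • f ^ e • y i = 0 := by
      have : ∑ i, a i • f ^ e • y i = f ^ e • ∑ i, a i • y i := by
        rw [Finset.smul_sum]
        exact Finset.sum_congr rfl fun i _ => smul_comm _ _ _
      rw [this, hy, smul_zero]
    have e2 : ∑ i, a i • ∑ j, b i j • z' j = 0 := by
      have : ∑ i, a i • ∑ j, b i j • z' j = ∑ j, (∑ i, a i * b i j) • z' j := by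
        simp only [Finset.smul_sum, Finset.sum_smul, smul_smul]
        exact Finset.sum_comm
      rw [this]
      exact Finset.sum_eq_zero fun j _ => by rw [h2, zero_smul]
    rw [e1, e2, sub_zero]
  obtain ⟨e', l', b', w, h3, h4⟩ := hK k a _ hsum
  refine wit (Fin l ⊕ Fin l') (e' + e) (fun i => Sum.elim (fun j => f ^ e' * b i j) (b' i))
    (Sum.elim z' (fun j => (w j : N))) (fun i => ?_) (fun j => ?_)
  · rw [Fintype.sum_sum_type]
    simp only [Sum.elim_inl, Sum.elim_inr]
    have h5 := congrArg (Subtype.val) (h3 i)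
    rw [AddSubmonoidClass.coe_finsetSum] at h5
    simp only [Submodule.coe_smul, smul_sub] at h5
    rw [← h5, pow_add, mul_smul]
    have : ∑ j, (f ^ e' * b i j) • z' j = f ^ e' • ∑ j, b i j • z' j := by
      rw [Finset.smul_sum]
      exact Finset.sum_congr rfl fun j _ => by rw [mul_smul]
    rw [this]; abel
  · rcases j with j | j
    · simp only [Sum.elim_inl]
      have : ∑ i, a i * (f ^ e' * b i j) = f ^ e' * ∑ i, a i * b i j := by
        rw [Finset.mul_sum]
        exact Finset.sum_congr rfl fun i _ => by ring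
      rw [this, h2, mul_zero]
    · simpa only [Sum.elim_inr] using h4 j

lemma union {R : Type} [CommRing R] {N : Type} [AddCommGroup N] [Module R N]
    (K : ℕ → Submodule R N) {f : R} (hm : Monotone K) (hu : ∀ y, ∃ i, y ∈ K i)
    (h : ∀ i, FlatAt (K i) f) : FlatAt N f := by
  intro k a y hy
  choose n hn using fun i => hu (y i)
  have hmem : ∀ i, y i ∈ K (Finset.univ.sup n) := fun i =>
    hm (Finset.le_sup (Finset.mem_univ i)) (hn i)
  have hsum : ∑ i, a i • (⟨_, hmem i⟩ : K (Finset.univ.sup n)) = 0 := by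
    apply Subtype.ext
    rw [AddSubmonoidClass.coe_finsetSum]
    simpa only [Submodule.coe_smul, Submodule.coe_zero] using hy
  obtain ⟨e, l, b, z, h1, h2⟩ := h _ k a _ hsum
  refine ⟨e, l, b, fun j => (z j : N), fun i => ?_, h2⟩
  have h5 := congrArg (Subtype.val) (h1 i)
  rw [AddSubmonoidClass.coe_finsetSum] at h5
  simpa only [Submodule.coe_smul] using h5

lemma fin {R : Type} [CommRing R] [IsDomain R] [IsNoetherianRing R] {N : Type} [AddCommGroup N]
    [Module R N] [hN : Module.Finite R N] : ∃ f : R, f ≠ 0 ∧ FlatAt N f := by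
  refine IsNoetherianRing.induction_on_isQuotientEquivQuotientPrime R hN
    (motive := fun N _ _ _ => ∃ f : R, f ≠ 0 ∧ FlatAt N f) ?_ ?_ ?_
  · intro N _ _ _ _
    refine ⟨1, one_ne_zero, fun k a y _ => ⟨0, 0, fun _ j => j.elim0, fun j => j.elim0,
      fun i => Subsingleton.elim _ _, fun j => j.elim0⟩⟩
  · intro N _ _ _ p φ
    by_cases hp : p.1 = ⊥
    · refine ⟨1, one_ne_zero, equiv φ.symm ?_⟩
      rw [hp]
      intro k a y hy
      choose r hr using fun i => Ideal.Quotient.mk_surjective (y i)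
      refine ⟨0, 1, fun i _ => r i, fun _ => 1, fun i => ?_, fun _ => ?_⟩
      · rw [pow_zero, one_smul, Fin.sum_univ_one, ← hr i, Algebra.smul_def, mul_one]
        rfl
      · have h1 : Ideal.Quotient.mk (⊥ : Ideal R) (∑ i, a i * r i) = 0 := by
          rw [map_sum, ← hy]
          refine Finset.sum_congr rfl fun i _ => ?_
          rw [map_mul, hr, Algebra.smul_def]
          rfl
        rw [Ideal.Quotient.eq_zero_iff_mem] at h1
        exact h1
    · obtain ⟨f, hf, hf0⟩ := Submodule.exists_mem_ne_zero_of_ne_bot hp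
      refine ⟨f, hf0, equiv φ.symm ?_⟩
      intro k a y _
      refine ⟨1, 0, fun _ j => j.elim0, fun j => j.elim0, fun i => ?_, fun j => j.elim0⟩
      rw [pow_one]
      simp only [Finset.univ_eq_empty, Finset.sum_empty]
      obtain ⟨r, hr⟩ := Ideal.Quotient.mk_surjective (y i)
      rw [← hr, Algebra.smul_def]
      change Ideal.Quotient.mk p.1 f * Ideal.Quotient.mk p.1 r = 0
      rw [Ideal.Quotient.eq_zero_iff_mem.2 hf, zero_mul]
  · intro N₁ _ _ _ N₂ _ _ _ N₃ _ _ _ f g hf hg hfg ⟨f1, hf1, h1⟩ ⟨f3, hf3, h3⟩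
    refine ⟨f1 * f3, mul_ne_zero hf1 hf3, ext (LinearMap.range f) ?_ ?_⟩
    · exact mul_right _ (equiv (LinearEquiv.ofInjective f hf) h1)
    · rw [mul_comm]
      exact mul_right _ (equiv (hfg.linearEquivOfSurjective hg).symm h3)

end GF1

theorem t_GF1 : S_GF1 :=
  ⟨fun _ _ _ _ _ _ g h => GF1.mul_right g h, fun _ _ _ _ _ _ _ _ φ _ h => GF1.equiv φ h,
    fun _ _ _ _ _ K _ h1 h2 => GF1.ext K h1 h2,
    fun _ _ _ _ _ K _ h1 h2 h3 => GF1.union K h1 h2 h3, fun _ _ _ _ _ _ _ _ => GF1.fin⟩

end BorderVSP
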